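import Mathlib
import Pool.Agent.TH409.FB.Var

set_option autoImplicit false

/-! # The dichotomy for forms with varying coefficients, over all fields with heights -/

namespace Pool.Agent.TH409.FB

open Finset Height Height.AdmissibleAbsValues Pool.Agent.H533R3.SL MvPolynomial
  Pool.Agent.TH409.SH

variable {n r : ℕ} {K : Type} [Field K] [AdmissibleAbsValues K]

theorem curve_zeroW (t : K) (ht : t ≠ 0) (L : ℕ) (hL : 1 ≤ L) (m lam : Fin r → ℕ)
    (v : Fin r → Fin (n + 1) → K) (hv0 : (fun q : Fin r × Fin (n + 1) => v q.1 q.2) ≠ 0)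
    (Φ : AbsoluteValue K ℝ → ℝ) (hΦ : FM Φ) (hΦ0 : ∀ w, 0 ≤ Φ w)
    (F : MvPolynomial (Fin (n + 1)) K) (e : ℕ) (hF : F.IsHomogeneous e)
    (A : ℝ) (harch : ∀ w ∈ (archAbsVal : Multiset (AbsoluteValue K ℝ)), l1 w F ≤ A * Φ w)
    (hnon : ∀ w ∈ (nonarchAbsVal : Set (AbsoluteValue K ℝ)), BL w (Φ w) F)
    (hlt : (A * r ^ e) ^ totalWeight K *
      (PP Φ * mulHeight (fun q : Fin r × Fin (n + 1) => v q.1 q.2) ^ e) < mulHeight₁ t ^ L)
    (hlam : ∀ α ∈ (GU v F).support, ∀ β ∈ (GU v F).support,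
      (ex m α < ex m β + L ∧ ex m β < ex m α + L) → ex lam α = ex lam β)
    (h0 : aeval (fun i => ∑ j, t ^ (m j) * v j i) F = 0) :
    aeval (cur (fun j i => t ^ (m j) * v j i) lam) F = 0 := by
  classical
  set V : AbsoluteValue K ℝ → ℝ := fun w => ⨆ q : Fin r × Fin (n + 1), w (v q.1 q.2) with hV
  have hVle : ∀ (w : AbsoluteValue K ℝ) j i, w (v j i) ≤ V w := fun w j i =>
    Finite.le_ciSup_of_le (f := fun q : Fin r × Fin (n + 1) => w (v q.1 q.2)) (j, i) le_rfl
  have hV0 : ∀ w : AbsoluteValue K ℝ, 0 ≤ V w := fun w =>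
    Real.iSup_nonneg_of_nonnegHomClass w _
  have hFMV : FM V := FM_iSup hv0
  have hcut := cutK t ht L (fun α => coeff α (GU v F)) (ex m) (GU v F).support
    (fun w => Φ w * V w ^ e) (FM_mul hΦ (FM_pow hFMV e))
    (fun w => mul_nonneg (hΦ0 w) (pow_nonneg (hV0 w) _)) (A * r ^ e)
    (by
      intro w hw
      have h1 := GU_l1 w v (V w) (hV0 w) (hVle w) F e hF
      have h2 := harch w hw
      have h3 : (0 : ℝ) ≤ (r * V w) ^ e := pow_nonneg (mul_nonneg (Nat.cast_nonneg _) (hV0 w)) _
      calc ∑ α ∈ (GU v F).support, w (coeff α (GU v F)) ≤ l1 w F * (r * V w) ^ e := h1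
        _ ≤ A * Φ w * (r * V w) ^ e := mul_le_mul_of_nonneg_right h2 h3
        _ = A * r ^ e * (Φ w * V w ^ e) := by rw [mul_pow]; ring)
    (by
      intro w hw α _
      exact GU_BL' (isNonarchimedean w hw) v (V w) (Φ w) (hV0 w) (hVle w) F e hF (hΦ0 w)
        (hnon w hw) α)
    (by
      rw [PP_mul hΦ (FM_pow hFMV e), PP_pow hFMV, hV, PP_iSup hv0]
      exact hlt)
  rw [aeval_pt] at h0
  rw [aeval_cur2]
  ext w
  rw [Polynomial.finsetSum_coeff, Polynomial.coeff_zero]
  simp_rw [Polynomial.coeff_C_mul_X_pow]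
  rw [← Finset.sum_filter]
  refine closed_sumK t L hL (fun α => coeff α (GU v F)) (ex m) (GU v F).support hcut
    (GU v F).support.card (GU v F).support
    ((GU v F).support.filter (fun α => w = ex lam α)) (Finset.Subset.refl _) le_rfl
    (Finset.filter_subset _ _) ?_ h0
  intro α hα β hβ hr
  rw [Finset.mem_filter] at hα ⊢
  exact ⟨hβ, hα.2.trans (hlam α hα.1 β hβ hr)⟩

/-- **Main dichotomy**, with local bounds `Φ` for the coefficients. -/
theorem dichW (FF : Set (MvPolynomial (Fin (n + 1)) K)) (d : ℕ) (hd : 1 ≤ d)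
    (Φ : AbsoluteValue K ℝ → ℝ) (hΦ : FM Φ) (hΦ0 : ∀ w, 0 ≤ Φ w) (hΦ1 : 1 ≤ PP Φ)
    (A : ℝ) (hA : 1 ≤ A)
    (hF : ∀ F ∈ FF, (∃ e, e ≤ d ∧ F.IsHomogeneous e) ∧
      (∀ w ∈ (archAbsVal : Multiset (AbsoluteValue K ℝ)), l1 w F ≤ A * Φ w) ∧
      (∀ w ∈ (nonarchAbsVal : Set (AbsoluteValue K ℝ)), BL w (Φ w) F))
    (hr : 1 ≤ r) (t : K) (m : Fin r → ℕ) (v : Fin r → Fin (n + 1) → K)
    (x : Fin (n + 1) → K) (hx0 : x ≠ 0) (hx : ∀ i, x i = ∑ j, t ^ (m j) * v j i)
    (hzero : ∀ F ∈ FF, aeval x F = 0) :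
    (∃ lam : Fin r → ℕ, (∀ F ∈ FF, aeval (cur (fun j i => t ^ (m j) * v j i) lam) F = 0) ∧
      ∃ i j, cur (fun j i => t ^ (m j) * v j i) lam i * Polynomial.C (x j) ≠
        cur (fun j i => t ^ (m j) * v j i) lam j * Polynomial.C (x i)) ∨
    mulHeight x ≤ ((A * r ^ d) ^ totalWeight K * (PP Φ *
      mulHeight (fun q : Fin r × Fin (n + 1) => v q.1 q.2) ^ d)) ^ (1 + 8 * (4 * d) ^ r) := by
  classical
  have hr1 : (1 : ℝ) ≤ r := by exact_mod_cast hr
  set H : ℝ := mulHeight (fun q : Fin r × Fin (n + 1) => v q.1 q.2) with hH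
  set D : ℕ := totalWeight K with hD
  have hH1 : 1 ≤ H := one_le_mulHeight _
  set M : ℝ := (A * r ^ d) ^ D * (PP Φ * H ^ d) with hM
  have hArd : 1 ≤ A * r ^ d := one_le_mul_of_one_le_of_one_le hA (one_le_pow₀ hr1)
  have hM1 : 1 ≤ M := one_le_mul_of_one_le_of_one_le (one_le_pow₀ hArd)
    (one_le_mul_of_one_le_of_one_le hΦ1 (one_le_pow₀ hH1))
  have hrH : (r : ℝ) ^ D * H ≤ M := by
    refine mul_le_mul ?_ ?_ (by linarith) (pow_nonneg (by linarith) _)
    · refine pow_le_pow_left₀ (by linarith) ?_ _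
      calc (r : ℝ) ≤ r ^ d := le_self_pow₀ hr1 (by omega)
        _ ≤ A * r ^ d := le_mul_of_one_le_left (by positivity) hA
    · calc H ≤ H ^ d := le_self_pow₀ hH1 (by omega)
        _ ≤ PP Φ * H ^ d := le_mul_of_one_le_left (by positivity) hΦ1
  have hxf : x = fun i => ∑ j, t ^ (m j) * v j i := funext hx
  have hMle : M ≤ M ^ (1 + 8 * (4 * d) ^ r) := le_self_pow₀ hM1 (by omega)
  have hv0 : (fun q : Fin r × Fin (n + 1) => v q.1 q.2) ≠ 0 := by
    intro h
    apply hx0
    rw [hxf]
    funext i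
    refine Finset.sum_eq_zero fun j _ => ?_
    have := congrFun h (j, i)
    simp only [Pi.zero_apply] at this
    rw [this, mul_zero]
  have ht1 : 1 ≤ mulHeight₁ t := one_le_mulHeight₁ t
  -- the base has height one
  rcases eq_or_lt_of_le ht1 with hte | htl
  · right
    refine le_trans ?_ hMle
    refine le_trans ?_ hrH
    rw [hxf]
    rw [hxf] at hx0
    have h1 := height_comb t m (∑ j, m j) (fun j => Finset.single_le_sum (f := m)
      (fun _ _ => Nat.zero_le _) (Finset.mem_univ j)) v Finset.univ hx0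
    rw [← hte, one_pow, mul_one] at h1
    exact h1
  have ht : t ≠ 0 := by
    rintro rfl
    rw [mulHeight₁_zero] at htl
    exact lt_irrefl _ htl
  -- the length of the gaps
  obtain ⟨L0, hL0⟩ : ∃ L : ℕ, M < mulHeight₁ t ^ L := pow_unbounded_of_one_lt M htl
  have hex : ∃ L : ℕ, M < mulHeight₁ t ^ L := ⟨L0, hL0⟩
  set L : ℕ := Nat.find hex with hLdef
  have hLM : M < mulHeight₁ t ^ L := Nat.find_spec hex
  have hL1 : 1 ≤ L := by
    rcases Nat.eq_zero_or_pos L with h | h
    · rw [h, pow_zero] at hLM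
      linarith
    · exact h
  have hLM' : mulHeight₁ t ^ (L - 1) ≤ M := by
    have := Nat.find_min hex (m := L - 1) (by omega)
    push Not at this
    exact this
  have hlt : ∀ F ∈ FF, ∃ e, F.IsHomogeneous e ∧ e ≤ d ∧
      (A * r ^ e) ^ totalWeight K * (PP Φ * H ^ e) < mulHeight₁ t ^ L := by
    intro F hFF
    obtain ⟨⟨e, hed, hFe⟩, _⟩ := hF F hFF
    refine ⟨e, hFe, hed, lt_of_le_of_lt ?_ hLM⟩
    rw [hM]
    refine mul_le_mul ?_ (mul_le_mul_of_nonneg_left (pow_le_pow_right₀ hH1 hed) (by linarith))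
      (by positivity) (by positivity)
    refine pow_le_pow_left₀ (by positivity) ?_ _
    exact mul_le_mul_of_nonneg_left (pow_le_pow_right₀ hr1 hed) (by linarith)
  -- the general scheme: a direction `lam`, and small exponents `a`
  have scheme : ∀ (lam a : Fin r → ℕ) (E N : ℕ), (∀ j, a j ≤ E) →
      (∀ j, N + a j = lam j + m j) →
      (∀ F ∈ FF, ∀ α ∈ (GU v F).support, ∀ β ∈ (GU v F).support,
        (ex m α < ex m β + L ∧ ex m β < ex m α + L) → ex lam α = ex lam β) →
      mulHeight₁ t ^ E ≤ M ^ (8 * (4 * d) ^ r) →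
      (∃ lam : Fin r → ℕ, (∀ F ∈ FF, aeval (cur (fun j i => t ^ (m j) * v j i) lam) F = 0) ∧
        ∃ i j, cur (fun j i => t ^ (m j) * v j i) lam i * Polynomial.C (x j) ≠
          cur (fun j i => t ^ (m j) * v j i) lam j * Polynomial.C (x i)) ∨
      mulHeight x ≤ M ^ (1 + 8 * (4 * d) ^ r) := by
    intro lam a E N haE hNa hclus hE
    have hcurve : ∀ F ∈ FF, aeval (cur (fun j i => t ^ (m j) * v j i) lam) F = 0 := by
      intro F hFF
      obtain ⟨_, hF1, hF2⟩ := hF F hFF
      obtain ⟨e, hFe, hed, hlte⟩ := hlt F hFF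
      refine curve_zeroW t ht L hL1 m lam v hv0 Φ hΦ hΦ0 F e hFe A hF1 hF2 hlte (hclus F hFF) ?_
      rw [← hxf]
      exact hzero F hFF
    by_cases hcon : ∃ i j, cur (fun j i => t ^ (m j) * v j i) lam i * Polynomial.C (x j) ≠
          cur (fun j i => t ^ (m j) * v j i) lam j * Polynomial.C (x i)
    · left
      exact ⟨lam, hcurve, hcon⟩
    right
    push Not at hcon
    obtain ⟨i0, hi0⟩ := Function.ne_iff.1 hx0
    simp only [Pi.zero_apply] at hi0
    have hp0 : cur (fun j i => t ^ (m j) * v j i) lam i0 ≠ 0 := by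
      intro h
      apply hi0
      rw [hx i0, ← cur_eval_one (fun j i => t ^ (m j) * v j i) lam i0, h, Polynomial.eval_zero]
    obtain ⟨w, hw⟩ : ∃ w, (cur (fun j i => t ^ (m j) * v j i) lam i0).coeff w ≠ 0 := by
      by_contra h
      push Not at h
      exact hp0 (Polynomial.ext (by simpa using h))
    set y : Fin (n + 1) → K := fun i =>
      ∑ j ∈ univ.filter (fun j => lam j = w), t ^ (a j) * v j i with hy
    have hcoef : ∀ i, (cur (fun j i => t ^ (m j) * v j i) lam i).coeff w =
        ∑ j ∈ univ.filter (fun j => lam j = w), t ^ (m j) * v j i := by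
      intro i
      unfold cur
      rw [Polynomial.finsetSum_coeff]
      simp_rw [Polynomial.coeff_C_mul_X_pow]
      rw [Finset.sum_filter]
      refine Finset.sum_congr rfl fun j _ => ?_
      by_cases h : lam j = w
      · rw [if_pos h, if_pos h.symm]
      · rw [if_neg h, if_neg (fun h' => h h'.symm)]
    have hrel : ∀ i, t ^ N * y i =
        t ^ w * (cur (fun j i => t ^ (m j) * v j i) lam i).coeff w := by
      intro i
      rw [hcoef, hy, Finset.mul_sum, Finset.mul_sum]
      refine Finset.sum_congr rfl fun j hj => ?_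
      rw [Finset.mem_filter] at hj
      rw [← mul_assoc, ← mul_assoc, ← pow_add, ← pow_add, hNa j, hj.2]
    have hy0 : y ≠ 0 := by
      intro h
      have h1 := hrel i0
      rw [h] at h1
      simp only [Pi.zero_apply, mul_zero] at h1
      exact mul_ne_zero (pow_ne_zero w ht) hw h1.symm
    have hpar : ∀ i j, x i * y j = x j * y i := by
      intro i j
      have h1 := congrArg (fun P => Polynomial.coeff P w) (hcon i j)
      simp only [Polynomial.coeff_mul_C] at h1
      apply mul_left_cancel₀ (pow_ne_zero N ht)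
      calc t ^ N * (x i * y j) = x i * (t ^ N * y j) := by ring
        _ = x i * (t ^ w * (cur (fun j i => t ^ (m j) * v j i) lam j).coeff w) := by rw [hrel j]
        _ = t ^ w * ((cur (fun j i => t ^ (m j) * v j i) lam j).coeff w * x i) := by ring
        _ = t ^ w * ((cur (fun j i => t ^ (m j) * v j i) lam i).coeff w * x j) := by rw [h1]
        _ = x j * (t ^ w * (cur (fun j i => t ^ (m j) * v j i) lam i).coeff w) := by ring
        _ = x j * (t ^ N * y i) := by rw [hrel i]
        _ = t ^ N * (x j * y i) := by ring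
    rw [height_eq_of_parallel x y hx0 hy0 hpar]
    refine (height_comb t a E haE v _ hy0).trans ?_
    rw [← mul_assoc, pow_add, pow_one]
    exact mul_le_mul hrH hE (by positivity) (by linarith)
  set N : ℕ := ∑ j, m j with hN
  have hmN : ∀ j, m j ≤ N := fun j => Finset.single_le_sum (f := m) (fun _ _ => Nat.zero_le _)
    (Finset.mem_univ j)
  rcases lt_or_ge M (mulHeight₁ t) with hbig | hsmall
  · -- large height: the exponents themselves
    have hL : L = 1 := by
      have : L ≤ 1 := Nat.find_min' hex (by rw [pow_one]; exact hbig)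
      omega
    refine scheme (fun j => N - m j) (fun _ => 0) 0 N (fun _ => le_rfl) ?_ ?_ ?_
    · intro j
      have := hmN j
      omega
    · intro F hFF α hα β hβ h
      obtain ⟨⟨e, hed, hFe⟩, _⟩ := hF F hFF
      have hG := GU_homog v F e hFe
      have h1 : ∑ j, (α j : ℤ) = e := by exact_mod_cast homog_sumK hG hα
      have h2 : ∑ j, (β j : ℤ) = e := by exact_mod_cast homog_sumK hG hβ
      have h3 : (ex m α : ℤ) = ex m β := by
        have : ex m α = ex m β := by omega
        exact_mod_cast this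
      have h4 : ∀ γ : Fin r →₀ ℕ, (ex (fun j => N - m j) γ : ℤ) =
          N * ∑ j, (γ j : ℤ) - ex m γ := by
        intro γ
        rw [ex_int, ex_int, Finset.mul_sum, ← Finset.sum_sub_distrib]
        refine Finset.sum_congr rfl fun j _ => ?_
        rw [Nat.cast_sub (hmN j)]
        ring
      have h5 : (ex (fun j => N - m j) α : ℤ) = ex (fun j => N - m j) β := by
        rw [h4, h4, h1, h2, h3]
      exact_mod_cast h5
    · rw [pow_zero]
      exact one_le_pow₀ hM1
  · -- rows
    set RR : Set (Fin r → ℤ) := {R | ∃ F ∈ FF, ∃ α ∈ (GU v F).support, ∃ β ∈ (GU v F).support,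
      (ex m α < ex m β + L ∧ ex m β < ex m α + L) ∧ R = fun j => (α j : ℤ) - β j} with hRRdef
    have hRR1 : ∀ R ∈ RR, ∑ j, |R j| ≤ ((2 * d : ℕ) : ℤ) := by
      rintro R ⟨F, hFF, α, hα, β, hβ, _, rfl⟩
      obtain ⟨⟨e, hed, hFe⟩, _⟩ := hF F hFF
      have hG := GU_homog v F e hFe
      have h1 := homog_sumK hG hα
      have h2 := homog_sumK hG hβ
      calc ∑ j, |(α j : ℤ) - β j| ≤ ∑ j, ((α j : ℤ) + β j) := by
            refine Finset.sum_le_sum fun j _ => ?_
            rw [abs_le]
            constructor <;> omega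
        _ = ((∑ j, α j : ℕ) : ℤ) + ((∑ j, β j : ℕ) : ℤ) := by
            rw [Finset.sum_add_distrib]
            push_cast
            rfl
        _ ≤ ((2 * d : ℕ) : ℤ) := by
            rw [h1, h2]
            push_cast
            have : (e : ℤ) ≤ d := by exact_mod_cast hed
            linarith
    have hRR2 : ∀ R ∈ RR, |∑ j, R j * (m j : ℤ)| ≤ (L : ℤ) := by
      rintro R ⟨F, hFF, α, hα, β, hβ, ⟨h1, h2⟩, rfl⟩
      have h3 : ∑ j, ((α j : ℤ) - β j) * (m j : ℤ) = (ex m α : ℤ) - ex m β := by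
        rw [ex_int, ex_int, ← Finset.sum_sub_distrib]
        refine Finset.sum_congr rfl fun j _ => ?_
        ring
      rw [h3, abs_le]
      constructor <;> omega
    obtain ⟨m', hm'1, hm'2⟩ := Pool.Agent.H458.Sp.reduce (2 * d) L (by omega) hL1 RR hRR1 N
      (fun j => (m j : ℤ))
      (fun j => by rw [abs_of_nonneg (by positivity)]; exact_mod_cast hmN j) hRR2
    set f : ℕ := 2 * (4 * d) ^ r * L with hf
    have hm'f : ∀ j, |m' j| ≤ (f : ℤ) := by
      intro j
      refine (hm'1 j).trans (le_of_eq ?_)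
      rw [hf]
      push_cast
      ring
    have hlamZ : ∀ j, (((m' j - m j + (f + N)).toNat : ℕ) : ℤ) = m' j - m j + (f + N) := by
      intro j
      have h1 := (abs_le.1 (hm'f j)).1
      have h2 : (m j : ℤ) ≤ N := by exact_mod_cast hmN j
      rw [Int.toNat_of_nonneg (by linarith)]
    refine scheme (fun j => (m' j - m j + (f + N)).toNat) (fun j => (m' j + f).toNat) (2 * f) N
      ?_ ?_ ?_ ?_
    · intro j
      have := (abs_le.1 (hm'f j)).2
      omega
    · intro j
      have h1 := (abs_le.1 (hm'f j)).1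
      have h2 := hmN j
      omega
    · intro F hFF α hα β hβ hr'
      obtain ⟨⟨e, hed, hFe⟩, _⟩ := hF F hFF
      have hG := GU_homog v F e hFe
      have h1 : ∑ j, (α j : ℤ) = e := by exact_mod_cast homog_sumK hG hα
      have h2 : ∑ j, (β j : ℤ) = e := by exact_mod_cast homog_sumK hG hβ
      have h3 := hm'2 (fun j => (α j : ℤ) - β j) ⟨F, hFF, α, hα, β, hβ, hr', rfl⟩
      have h4 : (ex (fun j => (m' j - m j + (f + N)).toNat) α : ℤ) -
            ex (fun j => (m' j - m j + (f + N)).toNat) β =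
          (∑ j, ((α j : ℤ) - β j) * m' j - ∑ j, ((α j : ℤ) - β j) * (m j : ℤ)) +
            (f + N) * (∑ j, (α j : ℤ) - ∑ j, (β j : ℤ)) := by
        rw [ex_int, ex_int, ← Finset.sum_sub_distrib, ← Finset.sum_sub_distrib,
          ← Finset.sum_sub_distrib, Finset.mul_sum, ← Finset.sum_add_distrib]
        refine Finset.sum_congr rfl fun j _ => ?_
        rw [hlamZ j]
        ring
      rw [h3, h1, h2] at h4
      have h5 : (ex (fun j => (m' j - m j + (f + N)).toNat) α : ℤ) =
        ex (fun j => (m' j - m j + (f + N)).toNat) β := by linarith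
      exact_mod_cast h5
    · -- the bound for the height of the base
      have h1 : mulHeight₁ t ^ L ≤ M ^ 2 := by
        have h2 : mulHeight₁ t ^ L = mulHeight₁ t ^ (L - 1) * mulHeight₁ t := by
          rw [← pow_succ, Nat.sub_add_cancel hL1]
        rw [h2, sq]
        exact mul_le_mul hLM' hsmall (by positivity) (by linarith)
      calc mulHeight₁ t ^ (2 * f) = (mulHeight₁ t ^ L) ^ (4 * (4 * d) ^ r) := by
            rw [← pow_mul, hf]
            congr 1
            ring
        _ ≤ (M ^ 2) ^ (4 * (4 * d) ^ r) := pow_le_pow_left₀ (by positivity) h1 _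
        _ = M ^ (8 * (4 * d) ^ r) := by
            rw [← pow_mul]
            congr 1
            ring

end Pool.Agent.TH409.FB
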