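import Mathlib
import Pool.Agent.TH409.FB.VarA
import Pool.Agent.TH409.SH.Fin
import Pool.Agent.TH551.HE.Rat

set_option autoImplicit false

/-! # Sparse rational points on hyperelliptic curves over number fields -/

namespace Pool.Agent.TH409.FB

open Finset Height Height.AdmissibleAbsValues Pool.Agent.TH409.SH NumberField
  Pool.Agent.H533R3.SL MvPolynomial

section prod

variable {K : Type} [Field K] [AdmissibleAbsValues K]

theorem FM_one : FM (fun _ : AbsoluteValue K ℝ => (1 : ℝ)) := by
  have h := FM_pow (FM_max (K := K) (1 : K)) 0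
  simpa using h

theorem FM_prod {ι : Type} (s : Finset ι) (f : ι → AbsoluteValue K ℝ → ℝ)
    (hf : ∀ i ∈ s, FM (f i)) : FM (fun w => ∏ i ∈ s, f i w) := by
  classical
  induction s using Finset.induction_on with
  | empty => simpa using FM_one (K := K)
  | insert a s ha ih =>
    simp only [Finset.prod_insert ha]
    exact FM_mul (hf a (mem_insert_self a s)) (ih fun i hi => hf i (mem_insert_of_mem hi))

theorem PP_one : PP (fun _ : AbsoluteValue K ℝ => (1 : ℝ)) = 1 := by
  have h := PP_pow (FM_max (K := K) (1 : K)) 0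
  simpa using h

theorem PP_prod {ι : Type} (s : Finset ι) (f : ι → AbsoluteValue K ℝ → ℝ)
    (hf : ∀ i ∈ s, FM (f i)) : PP (fun w => ∏ i ∈ s, f i w) = ∏ i ∈ s, PP (f i) := by
  classical
  induction s using Finset.induction_on with
  | empty => simpa using PP_one (K := K)
  | insert a s ha ih =>
    simp only [Finset.prod_insert ha]
    rw [PP_mul (hf a (mem_insert_self a s)) (FM_prod s f fun i hi => hf i (mem_insert_of_mem hi)),
      ih fun i hi => hf i (mem_insert_of_mem hi)]

end prod

section form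

/-- the form `X₂² X₀^(d-2) - ∑ a_i X₁^i X₀^(d-i)` of the curve `y² = F(x)`, `d = deg F` -/
noncomputable def QK {K : Type} [Field K] (F : Polynomial K) : MvPolynomial (Fin 3) K :=
  X 2 ^ 2 * X 0 ^ (F.natDegree - 2) -
    ∑ i ∈ range (F.natDegree + 1), C (F.coeff i) * X 1 ^ i * X 0 ^ (F.natDegree - i)

variable {K : Type} [Field K] (F : Polynomial K)

theorem QK_homog (hd : 2 ≤ F.natDegree) : (QK F).IsHomogeneous F.natDegree := by
  unfold QK
  refine IsHomogeneous.sub ?_ (IsHomogeneous.sum _ _ _ fun i hi => ?_)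
  · have h1 := ((isHomogeneous_X_pow (R := K) (2 : Fin 3) 2).mul
      (isHomogeneous_X_pow (R := K) (0 : Fin 3) (F.natDegree - 2)))
    have h2 : 2 + (F.natDegree - 2) = F.natDegree := by omega
    rwa [h2] at h1
  · have h1 := (((isHomogeneous_C (Fin 3) (F.coeff i)).mul
      (isHomogeneous_X_pow (R := K) (1 : Fin 3) i)).mul
      (isHomogeneous_X_pow (R := K) (0 : Fin 3) (F.natDegree - i)))
    have h2 : 0 + i + (F.natDegree - i) = F.natDegree := by
      have := mem_range.1 hi
      omega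
    rwa [h2] at h1

theorem QK_aeval {R : Type} [CommRing R] [Algebra K R] (p : Fin 3 → R) :
    aeval p (QK F) = p 2 ^ 2 * p 0 ^ (F.natDegree - 2) -
      ∑ i ∈ range (F.natDegree + 1),
        algebraMap K R (F.coeff i) * p 1 ^ i * p 0 ^ (F.natDegree - i) := by
  unfold QK
  simp only [map_sub, map_mul, map_pow, map_sum, aeval_X, aeval_C]

theorem QK_l1 (w : AbsoluteValue K ℝ) (M : ℝ) (hM : 1 ≤ M)
    (hf : ∀ i, w (F.coeff i) ≤ M) : l1 w (QK F) ≤ (F.natDegree + 2) * M := by
  have hpow : ∀ (j : Fin 3) (e : ℕ), l1 w (X j ^ e : MvPolynomial (Fin 3) K) ≤ 1 := by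
    intro j e
    have := l1_pow (w := w) (X j : MvPolynomial (Fin 3) K) 1 (l1_X w j) e
    simpa using this
  have hneg : ∀ G : MvPolynomial (Fin 3) K, l1 w (-G) ≤ l1 w G := by
    intro G
    have h1 := l1_mul (w := w) (C (-1 : K)) G
    have h2 : C (-1 : K) * G = -G := by
      rw [map_neg, map_one, neg_one_mul]
    rw [h2] at h1
    refine h1.trans ?_
    have h3 : l1 w (C (-1 : K) : MvPolynomial (Fin 3) K) ≤ 1 := by
      refine (l1_C w (-1 : K)).trans (le_of_eq ?_)
      rw [AbsoluteValue.map_neg, map_one]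
    nlinarith [l1_nonneg w G]
  unfold QK
  rw [sub_eq_add_neg]
  refine (l1_add w _ _).trans ?_
  have h1 : l1 w (X 2 ^ 2 * X 0 ^ (F.natDegree - 2) : MvPolynomial (Fin 3) K) ≤ 1 := by
    refine (l1_mul w _ _).trans ?_
    exact mul_le_one₀ (hpow 2 2) (l1_nonneg w _) (hpow 0 _)
  have h2 : l1 w (∑ i ∈ range (F.natDegree + 1),
      C (F.coeff i) * X 1 ^ i * X 0 ^ (F.natDegree - i) : MvPolynomial (Fin 3) K) ≤
      (F.natDegree + 1) * M := by
    refine (l1_sum w _ _).trans ?_
    have h3 : ∀ i ∈ range (F.natDegree + 1), l1 w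
        (C (F.coeff i) * X 1 ^ i * X 0 ^ (F.natDegree - i) : MvPolynomial (Fin 3) K) ≤ M := by
      intro i _
      refine (l1_mul w _ _).trans ?_
      have h4 : l1 w (C (F.coeff i) * X 1 ^ i : MvPolynomial (Fin 3) K) ≤ M := by
        refine (l1_mul w _ _).trans ?_
        have h5 := l1_C (w := w) (τ := Fin 3) (F.coeff i)
        have h6 := hpow 1 i
        have h7 := l1_nonneg w (C (F.coeff i) : MvPolynomial (Fin 3) K)
        have h8 := l1_nonneg w (X 1 ^ i : MvPolynomial (Fin 3) K)
        have h9 := hf i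
        nlinarith
      have h6 := hpow 0 (F.natDegree - i)
      have h7 := l1_nonneg w (C (F.coeff i) * X 1 ^ i : MvPolynomial (Fin 3) K)
      have h8 := l1_nonneg w (X 0 ^ (F.natDegree - i) : MvPolynomial (Fin 3) K)
      nlinarith
    refine (Finset.sum_le_sum h3).trans ?_
    rw [Finset.sum_const, card_range, nsmul_eq_mul]
    push_cast
    exact le_rfl
  have h3 := hneg (∑ i ∈ range (F.natDegree + 1),
      C (F.coeff i) * X 1 ^ i * X 0 ^ (F.natDegree - i) : MvPolynomial (Fin 3) K)
  have : (0 : ℝ) ≤ F.natDegree := Nat.cast_nonneg _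
  nlinarith

theorem QK_BL (w : AbsoluteValue K ℝ) (hw : IsNonarchimedean w) (M : ℝ) (hM : 1 ≤ M)
    (hf : ∀ i, w (F.coeff i) ≤ M) : BL w M (QK F) := by
  have hM0 : 0 ≤ M := by linarith
  have hpow : ∀ (j : Fin 3) (e : ℕ), BL w 1 (X j ^ e : MvPolynomial (Fin 3) K) := by
    intro j e
    have := BL_pow hw (X j : MvPolynomial (Fin 3) K) 1 zero_le_one (BL_X j) e
    simpa using this
  have hmul : ∀ G H : MvPolynomial (Fin 3) K, BL w 1 G → BL w 1 H → BL w 1 (G * H) := by
    intro G H hG hH
    have := BL_mul hw G H 1 1 zero_le_one zero_le_one hG hH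
    simpa using this
  have hmul' : ∀ G H : MvPolynomial (Fin 3) K, BL w M G → BL w 1 H → BL w M (G * H) := by
    intro G H hG hH
    have := BL_mul hw G H M 1 hM0 zero_le_one hG hH
    simpa using this
  have hsum : BL w M (∑ i ∈ range (F.natDegree + 1),
      C (F.coeff i) * X 1 ^ i * X 0 ^ (F.natDegree - i) : MvPolynomial (Fin 3) K) :=
    BL_sum hw _ _ _ hM0 fun i _ => hmul' _ _ (hmul' _ _ (fun α => by
      have h1 := BL_C (w := w) (τ := Fin 3) (F.coeff i) α
      exact h1.trans (hf i)) (hpow 1 i)) (hpow 0 _)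
  intro α
  unfold QK
  rw [coeff_sub, sub_eq_add_neg]
  refine (hw _ _).trans (max_le ((hmul _ _ (hpow 2 2) (hpow 0 _) α).trans hM) ?_)
  rw [map_neg_eq_map]
  exact hsum α

end form

/-- **Sparse points of hyperelliptic curves over number fields, in any base.** -/
theorem hypK_gen (K : Type) [Field K] [NumberField K] (F : Polynomial K)
    (hf : F.Separable) (hd : 3 ≤ F.natDegree) (Φ : AbsoluteValue K ℝ → ℝ) (hΦF : FM Φ)
    (hΦ1 : ∀ w, 1 ≤ Φ w) (hΦc : ∀ w i, w (F.coeff i) ≤ Φ w) (hPP1 : 1 ≤ PP Φ) {r : ℕ} (hr : 1 ≤ r) (t : K) (l : Fin r → ℕ)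
    (v : Fin r → Fin 3 → K) (x y : K) (hxy : y ^ 2 = F.eval x) (z : K) (hz : z ≠ 0)
    (h0 : z = ∑ j, t ^ (l j) * v j 0) (h1 : z * x = ∑ j, t ^ (l j) * v j 1)
    (h2 : z * y = ∑ j, t ^ (l j) * v j 2) :
    mulHeight₁ x ≤ (((F.natDegree + 2) * r ^ F.natDegree) ^ totalWeight K *
      (PP Φ *
      mulHeight (fun q : Fin r × Fin 3 => v q.1 q.2) ^ F.natDegree)) ^
        (1 + 8 * (4 * F.natDegree) ^ r) := by
  classical
  set u : Fin 3 → K := ![z, z * x, z * y] with hu
  have hu0 : u ≠ 0 := by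
    intro h
    exact hz (congrFun h 0)
  have huv : ∀ i, u i = ∑ j, t ^ (l j) * v j i := by
    intro i
    fin_cases i
    · exact h0
    · exact h1
    · exact h2
  have hd0 : (0 : ℝ) ≤ F.natDegree := Nat.cast_nonneg _
  have hzero : aeval u (QK F) = 0 := by
    rw [QK_aeval]
    have e1 : u 0 = z := rfl
    have e2 : u 1 = z * x := rfl
    have e3 : u 2 = z * y := rfl
    rw [e1, e2, e3]
    have h3 : y ^ 2 = ∑ i ∈ range (F.natDegree + 1), F.coeff i * x ^ i := by
      rw [hxy, Polynomial.eval_eq_sum_range]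
    have h5 : ∀ i ∈ range (F.natDegree + 1), algebraMap K K (F.coeff i) * (z * x) ^ i *
        z ^ (F.natDegree - i) = z ^ F.natDegree * (F.coeff i * x ^ i) := by
      intro i hi
      have hi' : i ≤ F.natDegree := by
        have := mem_range.1 hi
        omega
      have h6 : z ^ F.natDegree = z ^ i * z ^ (F.natDegree - i) := by
        rw [← pow_add]
        congr 1
        omega
      rw [h6, mul_pow]
      simp only [Algebra.algebraMap_self, RingHom.id_apply]
      ring
    rw [Finset.sum_congr rfl h5, ← Finset.mul_sum, ← h3]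
    have h6 : z ^ F.natDegree = z ^ 2 * z ^ (F.natDegree - 2) := by
      rw [← pow_add]
      congr 1
      omega
    rw [h6]
    ring
  rcases dichW ({QK F} : Set (MvPolynomial (Fin 3) K)) F.natDegree (by omega) Φ hΦF
      (fun w => by linarith [hΦ1 w]) hPP1 ((F.natDegree : ℝ) + 2) (by linarith) (by
      intro G hG
      rw [Set.mem_singleton_iff] at hG
      subst hG
      refine ⟨⟨F.natDegree, le_rfl, QK_homog F (by omega)⟩, ?_, ?_⟩
      · intro w hw
        exact QK_l1 F w (Φ w) (hΦ1 w) (hΦc w)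
      · intro w hw
        exact QK_BL F w (isNonarchimedean w hw) (Φ w) (hΦ1 w) (hΦc w)) hr t l v u hu0 huv
      (by
      intro G hG
      rw [Set.mem_singleton_iff] at hG
      subst hG
      exact hzero) with ⟨lam, hcur, i, i', hc⟩ | h
  · exfalso
    set p := cur (fun j i => t ^ (l j) * v j i) lam with hp
    have hev : ∀ i, (p i).eval 1 = u i := by
      intro i
      rw [hp, cur_eval_one, huv i]
    have hp0 : p 0 ≠ 0 := by
      intro h
      have h3 := hev 0
      rw [h, Polynomial.eval_zero] at h3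
      exact hz h3.symm
    have h3 := hcur _ rfl
    rw [QK_aeval, sub_eq_zero] at h3
    obtain ⟨c, c', hc1, hc2⟩ := Pool.Agent.TH551.HE.no_param K F hf hd (p 1) (p 0) (p 2) hp0 (by
        rw [h3]
        refine Finset.sum_congr rfl fun i _ => ?_
        rfl)
    have hall : ∀ i, ∃ e : K, p i = Polynomial.C e * p 0 := by
      intro i
      fin_cases i
      · exact ⟨1, by simp⟩
      · exact ⟨c, hc1⟩
      · exact ⟨c', hc2⟩
    obtain ⟨e, he⟩ := hall i
    obtain ⟨e', he'⟩ := hall i'
    apply hc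
    have h4 : u i = e * u 0 := by
      rw [← hev i, he, Polynomial.eval_mul, Polynomial.eval_C, hev 0]
    have h5 : u i' = e' * u 0 := by
      rw [← hev i', he', Polynomial.eval_mul, Polynomial.eval_C, hev 0]
    rw [he, he', h4, h5, Polynomial.C_mul, Polynomial.C_mul]
    ring
  · refine le_trans ?_ h
    have h3 : x = u 1 / u 0 := by
      show x = z * x / z
      field_simp
    rw [h3, mulHeight₁_div_eq_mulHeight]
    have h4 : ![u 1, u 0] = u ∘ ![1, 0] := by
      funext j
      fin_cases j <;> rfl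
    rw [h4]
    exact mulHeight_comp_le _ _

/-- the vector `(1, a_0, …, a_d)` of the coefficients of `F` -/
noncomputable def cvec {K : Type} [Field K] (F : Polynomial K) (i : Option (Fin (F.natDegree + 1))) :
    K := i.elim 1 fun j => F.coeff j

/-- with the height of the vector `(1, a_0, …, a_d)` -/
theorem hypK_main (K : Type) [Field K] [NumberField K] (F : Polynomial K)
    (hf : F.Separable) (hd : 3 ≤ F.natDegree) {r : ℕ} (hr : 1 ≤ r) (t : K) (l : Fin r → ℕ)
    (v : Fin r → Fin 3 → K) (x y : K) (hxy : y ^ 2 = F.eval x) (z : K) (hz : z ≠ 0)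
    (h0 : z = ∑ j, t ^ (l j) * v j 0) (h1 : z * x = ∑ j, t ^ (l j) * v j 1)
    (h2 : z * y = ∑ j, t ^ (l j) * v j 2) :
    mulHeight₁ x ≤ (((F.natDegree + 2) * r ^ F.natDegree) ^ totalWeight K *
      (mulHeight (cvec F) *
      mulHeight (fun q : Fin r × Fin 3 => v q.1 q.2) ^ F.natDegree)) ^
        (1 + 8 * (4 * F.natDegree) ^ r) := by
  have hc0 : cvec F ≠ 0 := by
    intro h
    have h3 := congrFun h none
    exact one_ne_zero h3
  have hb : ∀ w : AbsoluteValue K ℝ, ∀ i, w (cvec F i) ≤ ⨆ i, w (cvec F i) := fun w i =>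
    le_ciSup (f := fun i => w (cvec F i)) (Set.finite_range _).bddAbove i
  have hΦ1 : ∀ w : AbsoluteValue K ℝ, 1 ≤ ⨆ i, w (cvec F i) := by
    intro w
    have h3 := hb w none
    have h4 : w (cvec F none) = 1 := map_one w
    rwa [h4] at h3
  have h := hypK_gen K F hf hd (fun w => ⨆ i, w (cvec F i)) (FM_iSup hc0) hΦ1 (by
    intro w i
    by_cases hi : i < F.natDegree + 1
    · exact hb w (some ⟨i, hi⟩)
    · rw [Polynomial.coeff_eq_zero_of_natDegree_lt (by omega), map_zero]
      linarith [hΦ1 w]) (by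
    rw [PP_iSup hc0]
    exact one_le_mulHeight _) hr t l v x y hxy z hz h0 h1 h2
  rwa [PP_iSup hc0] at h

/-- the height of `(1, a_0, …, a_d)` is at most the product of the heights of the `a_i` -/
theorem cvec_le (K : Type) [Field K] [NumberField K] (F : Polynomial K) :
    mulHeight (cvec F) ≤ ∏ i ∈ range (F.natDegree + 1), mulHeight₁ (F.coeff i) := by
  have hc0 : cvec F ≠ 0 := by
    intro h
    have h3 := congrFun h none
    exact one_ne_zero h3
  have hΦF : FM fun w : AbsoluteValue K ℝ => ∏ i ∈ range (F.natDegree + 1),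
      max (w (F.coeff i)) 1 := FM_prod _ _ fun i _ => FM_max _
  have hΦP : PP (fun w : AbsoluteValue K ℝ => ∏ i ∈ range (F.natDegree + 1),
      max (w (F.coeff i)) 1) = ∏ i ∈ range (F.natDegree + 1), mulHeight₁ (F.coeff i) := by
    rw [PP_prod _ _ fun i _ => FM_max _]
    exact Finset.prod_congr rfl fun i _ => PP_max _
  have h4 : ∀ (w : AbsoluteValue K ℝ) (s : Finset ℕ), 1 ≤ ∏ j ∈ s, max (w (F.coeff j)) 1 := by
    intro w s
    induction s using Finset.induction_on with
    | empty => simp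
    | insert a s ha ih =>
      rw [Finset.prod_insert ha]
      exact one_le_mul_of_one_le_of_one_le (le_max_right _ _) ih
  have hle : ∀ w : AbsoluteValue K ℝ, ⨆ i, w (cvec F i) ≤
      ∏ i ∈ range (F.natDegree + 1), max (w (F.coeff i)) 1 := by
    intro w
    refine ciSup_le fun i => ?_
    rcases i with _ | j
    · have h5 : w (cvec F none) = 1 := map_one w
      rw [h5]
      exact h4 w _
    · have h5 : w (cvec F (some j)) = w (F.coeff j) := rfl
      rw [h5, ← Finset.mul_prod_erase _ (fun j => max (w (F.coeff j)) 1) (mem_range.2 j.2)]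
      exact (le_max_left _ _).trans (le_mul_of_one_le_right (by positivity) (h4 w _))
  have h := PP_le (fun w : AbsoluteValue K ℝ => ⨆ i, w (cvec F i))
    (fun w : AbsoluteValue K ℝ => ∏ i ∈ range (F.natDegree + 1), max (w (F.coeff i)) 1) 1
    (FM_iSup hc0) hΦF (fun w => Real.iSup_nonneg_of_nonnegHomClass w _)
    (fun w _ => by rw [one_mul]; exact hle w) (fun w _ => hle w)
  rw [PP_iSup hc0, hΦP, one_pow, one_mul] at h
  exact h

/-- logarithmic form -/
theorem hypK_log (K : Type) [Field K] [NumberField K] (F : Polynomial K)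
    (hf : F.Separable) (hd : 3 ≤ F.natDegree)
    {r : ℕ} (hr : 1 ≤ r) (t : K) (l : Fin r → ℕ)
    (v : Fin r → Fin 3 → K) (x y : K) (hxy : y ^ 2 = F.eval x) (z : K) (hz : z ≠ 0)
    (h0 : z = ∑ j, t ^ (l j) * v j 0) (h1 : z * x = ∑ j, t ^ (l j) * v j 1)
    (h2 : z * y = ∑ j, t ^ (l j) * v j 2) :
    logHeight₁ x / Module.finrank ℚ K ≤ (1 + 8 * (4 * F.natDegree) ^ r) *
      (ah K (cvec F) + F.natDegree * ah K (fun q : Fin r × Fin 3 => v q.1 q.2) +
        Real.log ((F.natDegree + 2) * r ^ F.natDegree)) := by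
  have h := hypK_main K F hf hd hr t l v x y hxy z hz h0 h1 h2
  have hD : (0 : ℝ) < Module.finrank ℚ K := finrank_pos' K
  have hr0 : (0 : ℝ) < r := by exact_mod_cast hr
  have hd0 : (0 : ℝ) ≤ F.natDegree := Nat.cast_nonneg _
  have hA : (0 : ℝ) < (F.natDegree + 2) * r ^ F.natDegree := by positivity
  have h3 := Real.log_le_log (mulHeight₁_pos _) h
  rw [Real.log_pow, Real.log_mul (pow_pos hA _).ne'
    (mul_pos (mulHeight_pos _) (pow_pos (mulHeight_pos _) _)).ne',
    Real.log_mul (mulHeight_pos _).ne' (pow_pos (mulHeight_pos _) _).ne', Real.log_pow,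
    Real.log_pow, totalWeight_eq_finrank] at h3
  unfold ah
  rw [logHeight_eq_log_mulHeight, logHeight_eq_log_mulHeight, logHeight₁_eq_log_mulHeight₁,
    div_le_iff₀ hD]
  refine h3.trans (le_of_eq ?_)
  push_cast
  field_simp
  ring

theorem cvec_log (K : Type) [Field K] [NumberField K] (F : Polynomial K) (H : ℝ)
    (hH : ∀ i, logHeight₁ (F.coeff i) / Module.finrank ℚ K ≤ H) :
    ah K (cvec F) ≤ (F.natDegree + 1) * H := by
  have hD : (0 : ℝ) < Module.finrank ℚ K := finrank_pos' K
  have h3 := Real.log_le_log (mulHeight_pos _) (cvec_le K F)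
  rw [Real.log_prod fun i _ => (mulHeight₁_pos _).ne'] at h3
  have h4 : ∑ i ∈ range (F.natDegree + 1), Real.log (mulHeight₁ (F.coeff i)) ≤
      (F.natDegree + 1) * (Module.finrank ℚ K * H) := by
    have h5 : ∀ i ∈ range (F.natDegree + 1), Real.log (mulHeight₁ (F.coeff i)) ≤
        Module.finrank ℚ K * H := by
      intro i _
      have h6 := hH i
      rw [div_le_iff₀ hD] at h6
      rw [logHeight₁_eq_log_mulHeight₁] at h6
      linarith
    refine (Finset.sum_le_sum h5).trans (le_of_eq ?_)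
    rw [Finset.sum_const, card_range, nsmul_eq_mul]
    push_cast
    ring
  unfold ah
  rw [logHeight_eq_log_mulHeight, div_le_iff₀ hD]
  refine (h3.trans h4).trans (le_of_eq ?_)
  ring

end Pool.Agent.TH409.FB
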