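import Mathlib
import Pool.Agent.W603.PV.Hgt
import Pool.Agent.TH409.SH.Main

set_option autoImplicit false

/-! # Function fields of curves as fields with heights -/

namespace Pool.Agent.TH409.FB

open FF Height Height.AdmissibleAbsValues Pool.Agent.W603.LV

section basic

variable {k L : Type} [Field k] [Field L] [Algebra k L]

/-- ultrametric inequality for the orders, in exponential form -/
theorem ord_exp_add (P : Place k L) {x y : L} (hx : x ≠ 0) (hy : y ≠ 0) (h : x + y ≠ 0) :
    Real.exp (-(P.ord (x + y) : ℝ)) ≤
      max (Real.exp (-(P.ord x : ℝ))) (Real.exp (-(P.ord y : ℝ))) := by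
  have h1 := P.ord_add hx hy h
  rcases le_total (P.ord x) (P.ord y) with h2 | h2
  · rw [min_eq_left h2] at h1
    refine le_max_of_le_left (Real.exp_le_exp.2 ?_)
    have : (P.ord x : ℝ) ≤ P.ord (x + y) := by exact_mod_cast h1
    linarith
  · rw [min_eq_right h2] at h1
    refine le_max_of_le_right (Real.exp_le_exp.2 ?_)
    have : (P.ord y : ℝ) ≤ P.ord (x + y) := by exact_mod_cast h1
    linarith

open Classical in
theorem av_na (P : Place k L) (x y : L) :
    (if x + y = 0 then (0 : ℝ) else Real.exp (-(P.ord (x + y) : ℝ))) ≤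
      max (if x = 0 then (0 : ℝ) else Real.exp (-(P.ord x : ℝ)))
        (if y = 0 then (0 : ℝ) else Real.exp (-(P.ord y : ℝ))) := by
  by_cases hxy : x + y = 0
  · rw [if_pos hxy]
    refine le_max_of_le_left ?_
    split_ifs
    · exact le_rfl
    · exact (Real.exp_pos _).le
  by_cases hx : x = 0
  · subst hx
    rw [zero_add] at hxy ⊢
    exact le_max_right _ _
  by_cases hy : y = 0
  · subst hy
    rw [add_zero] at hxy ⊢
    exact le_max_left _ _
  rw [if_neg hxy, if_neg hx, if_neg hy]
  exact ord_exp_add P hx hy hxy

open Classical in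
/-- the absolute value `exp (- ord_P)` -/
noncomputable def av (P : Place k L) : AbsoluteValue L ℝ where
  toFun x := if x = 0 then 0 else Real.exp (-(P.ord x : ℝ))
  map_mul' x y := by
    by_cases hx : x = 0
    · simp [hx]
    by_cases hy : y = 0
    · simp [hy]
    rw [if_neg (mul_ne_zero hx hy), if_neg hx, if_neg hy, P.ord_mul hx hy, ← Real.exp_add]
    push_cast
    ring_nf
  nonneg' x := by
    split_ifs
    · exact le_rfl
    · exact (Real.exp_pos _).le
  eq_zero' x := by
    by_cases hx : x = 0
    · simp [hx]
    · simp [hx, Real.exp_ne_zero]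
  add_le' x y := by
    refine (av_na P x y).trans (max_le_add_of_nonneg ?_ ?_) <;>
    · split_ifs
      · exact le_rfl
      · exact (Real.exp_pos _).le

open Classical in
theorem av_ne (P : Place k L) {x : L} (hx : x ≠ 0) : av P x = Real.exp (-(P.ord x : ℝ)) := by
  show (if x = 0 then (0 : ℝ) else Real.exp (-(P.ord x : ℝ))) = _
  rw [if_neg hx]

theorem av_nonarch (P : Place k L) : IsNonarchimedean (av P) := fun x y => av_na P x y

theorem av_const (P : Place k L) (c : k) : av P (algebraMap k L c) ≤ 1 := by
  by_cases hc : c = 0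
  · rw [hc, map_zero, map_zero]; exact zero_le_one
  · rw [av_ne P (by simpa using hc), P.ord_const hc]
    simp

theorem av_inj : Function.Injective (fun P : Place k L => av P) := by
  intro P Q h
  ext x
  by_cases hx : x = 0
  · rw [hx, P.ord_zero, Q.ord_zero]
  · have h1 : av P x = av Q x := by
      have : av P = av Q := h
      rw [this]
    rw [av_ne P hx, av_ne Q hx, Real.exp_eq_exp] at h1
    have h2 : (P.ord x : ℝ) = Q.ord x := by linarith
    exact_mod_cast h2

/-- the places, as a set of absolute values -/
noncomputable def plEquiv : Place k L ≃ Set.range (fun P : Place k L => av P) :=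
  Equiv.ofInjective _ av_inj

variable (k) in
/-- The degree of the map to projective space with homogeneous coordinates `x`: minus the sum over
the places of the minimum of the orders of the nonzero coordinates. -/
noncomputable def deg {ι : Type} (x : ι → L) : ℤ :=
  - ∑ᶠ P : Place k L, ⨅ j : {j // x j ≠ 0}, P.ord (x j)

end basic

section inst

variable (k L : Type) [Field k] [Field L] [Algebra k L] [CharZero k] [IsFF k L] [IsAlgClosed k]

/-- The function field of a curve has admissible absolute values: `exp (- ord_P)`, for the places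
`P`. -/
@[reducible] noncomputable def ffInst : AdmissibleAbsValues L where
  archAbsVal := 0
  nonarchAbsVal := Set.range (fun P : Place k L => av P)
  isNonarchimedean := by
    rintro _ ⟨P, rfl⟩
    exact av_nonarch P
  hasFiniteMulSupport := by
    intro x hx
    have h1 : {P : Place k L | P.ord x ≠ 0}.Finite := finite_support x
    refine (h1.image (plEquiv (k := k) (L := L))).subset ?_
    rintro ⟨_, P, rfl⟩ hv
    refine ⟨P, ?_, rfl⟩
    intro h2
    apply hv
    show av P x = 1
    rw [av_ne P hx, h2]
    simp
  product_formula := by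
    intro x hx
    rw [Multiset.map_zero, Multiset.prod_zero, one_mul]
    rw [← finprod_comp_equiv (plEquiv (k := k) (L := L))]
    have h1 : ∀ P : Place k L,
        ((plEquiv (k := k) (L := L) P : Set.range (fun P : Place k L => av P)) :
          AbsoluteValue L ℝ) x = Real.exp (-(P.ord x : ℝ)) := fun P => av_ne P hx
    simp_rw [h1]
    have hT : {P : Place k L | P.ord x ≠ 0}.Finite := finite_support x
    rw [finprod_eq_prod_of_mulSupport_subset (s := hT.toFinset)]
    · rw [← Real.exp_sum, Finset.sum_neg_distrib]
      have h2 := sum_ord_finset (k := k) x hT.toFinset (fun P hP => by simpa using hP)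
      have h3 : ∑ P ∈ hT.toFinset, (P.ord x : ℝ) = 0 := by exact_mod_cast h2
      rw [h3]
      simp
    · intro P hP
      rw [Set.Finite.coe_toFinset]
      intro h2
      apply hP
      show Real.exp (-(P.ord x : ℝ)) = 1
      rw [h2]
      simp

/-- the height of the function field is the degree -/
theorem logHeight_deg {ι : Type} [Finite ι] {x : ι → L} (hx : x ≠ 0) :
    @logHeight L _ (ffInst k L) ι x = deg k x := by
  classical
  letI : AdmissibleAbsValues L := ffInst k L
  haveI : Fintype ι := Fintype.ofFinite ι
  obtain ⟨i0, hi0⟩ := Function.ne_iff.1 hx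
  rw [Pi.zero_apply] at hi0
  haveI : Nonempty {j // x j ≠ 0} := ⟨⟨i0, hi0⟩⟩
  haveI : Nonempty ι := ⟨i0⟩
  have hsup : ∀ P : Place k L, ⨆ i, av P (x i) =
      Real.exp (-((⨅ j : {j // x j ≠ 0}, P.ord (x j) : ℤ) : ℝ)) := by
    intro P
    obtain ⟨j, hj⟩ := exists_eq_ciInf_of_finite (f := fun j : {j // x j ≠ 0} => P.ord (x j))
    apply le_antisymm
    · apply ciSup_le
      intro i
      by_cases hi : x i = 0
      · rw [hi, map_zero]; exact (Real.exp_pos _).le
      · rw [av_ne P hi, Real.exp_le_exp]
        have h1 : (⨅ j : {j // x j ≠ 0}, P.ord (x j)) ≤ P.ord (x i) :=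
          ciInf_le (Finite.bddBelow_range _) (⟨i, hi⟩ : {j // x j ≠ 0})
        have h2 : ((⨅ j : {j // x j ≠ 0}, P.ord (x j) : ℤ) : ℝ) ≤ P.ord (x i) := by
          exact_mod_cast h1
        linarith
    · rw [← hj, ← av_ne P j.2]
      exact le_ciSup (f := fun i => av P (x i)) (Finite.bddAbove_range _) j.1
  obtain ⟨T, hT⟩ := exists_supp (k := k) (Finset.univ : Finset ι) x
  have hfin : (Function.support fun P : Place k L =>
      ⨅ j : {j // x j ≠ 0}, P.ord (x j)) ⊆ (T : Set (Place k L)) := by
    intro P hP
    by_contra hcon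
    apply hP
    obtain ⟨j, hj⟩ := exists_eq_ciInf_of_finite (f := fun j : {j // x j ≠ 0} => P.ord (x j))
    show (⨅ j : {j // x j ≠ 0}, P.ord (x j)) = 0
    rw [← hj]
    by_contra h0
    exact hcon (hT j.1 (Finset.mem_univ _) P h0)
  have h1 : mulHeight x = ∏ᶠ P : Place k L,
      Real.exp (-((⨅ j : {j // x j ≠ 0}, P.ord (x j) : ℤ) : ℝ)) := by
    rw [mulHeight_eq hx]
    have h0 : (archAbsVal : Multiset (AbsoluteValue L ℝ)) = 0 := rfl
    rw [h0, Multiset.map_zero, Multiset.prod_zero, one_mul]
    rw [← finprod_congr hsup]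
    exact (finprod_comp_equiv (plEquiv (k := k) (L := L))
      (f := fun v : Set.range (fun P : Place k L => av P) => ⨆ i, v.val (x i))).symm
  rw [logHeight_eq_log_mulHeight, h1]
  unfold deg
  rw [finsum_eq_sum_of_support_subset _ hfin, finprod_eq_prod_of_mulSupport_subset (s := T)]
  · rw [← Real.exp_sum, Real.log_exp, Finset.sum_neg_distrib]
    push_cast
    rfl
  · intro P hP
    by_contra hcon
    apply hP
    have h2 : (⨅ j : {j // x j ≠ 0}, P.ord (x j)) = 0 := by
      by_contra h3
      exact hcon (hfin h3)
    show Real.exp (-((⨅ j : {j // x j ≠ 0}, P.ord (x j) : ℤ) : ℝ)) = 1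
    rw [h2]
    simp

end inst

end Pool.Agent.TH409.FB
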