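import Mathlib
import Pool.Agent.TH409.FB.Abs
import Pool.Agent.TH409.FB.Var
import Pool.Agent.TH409.SH.Fin2

set_option autoImplicit false

/-! # Sparse points over function fields, varieties with varying coefficients -/

namespace Pool.Agent.TH409.FB

open FF Height Height.AdmissibleAbsValues Pool.Agent.W603.LV Pool.Agent.TH409.SH
  Pool.Agent.H533R3.SL MvPolynomial

variable {n r : ℕ}

/-- Over no extension field of `K` there is a nonconstant rational curve in the zeros of `GG`. -/
def NoRatExt {K : Type} [Field K] (GG : Set (MvPolynomial (Fin (n + 1)) K)) : Prop :=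
  ∀ (M : Type) [Field M] [Algebra K M] (q : Fin (n + 1) → Polynomial M),
    (∀ F ∈ GG, aeval q F = 0) →
    ∀ i j (a b : M), (q i).eval a * (q j).eval b = (q j).eval a * (q i).eval b

/-- The entries of `c` contain `1` and all nonzero coefficients of the polynomials of `GG`. -/
def CoeffsIn {K : Type} [Field K] {s : ℕ} (c : Fin s → K)
    (GG : Set (MvPolynomial (Fin (n + 1)) K)) : Prop :=
  (∃ i, c i = 1) ∧ ∀ F ∈ GG, ∀ α, coeff α F = 0 ∨ ∃ i, coeff α F = c i

/-- **Dichotomy over function fields of curves, varying coefficients.** -/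
theorem dichG (k K L : Type) [Field k] [Field K] [Field L] [Algebra k L] [Algebra K L]
    [CharZero k] [IsFF k L] [IsAlgClosed k] (GG : Set (MvPolynomial (Fin (n + 1)) K)) (d : ℕ)
    (hd : 1 ≤ d) (hG : ∀ F ∈ GG, ∃ e, e ≤ d ∧ F.IsHomogeneous e) {s : ℕ} (c : Fin s → K)
    (hc : CoeffsIn c GG) (hr : 1 ≤ r) (t : L) (l : Fin r → ℕ)
    (v : Fin r → Fin (n + 1) → L) (x : Fin (n + 1) → L) (hx : OnSparse t l v x)
    (hz : ∀ F ∈ GG, aeval x F = 0) :
    (∃ lam : Fin r → ℕ, (∀ F ∈ GG, aeval (cur (fun j i => t ^ (l j) * v j i) lam) F = 0) ∧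
      ∃ i j, cur (fun j i => t ^ (l j) * v j i) lam i * Polynomial.C (x j) ≠
        cur (fun j i => t ^ (l j) * v j i) lam j * Polynomial.C (x i)) ∨
    deg k x ≤ (1 + 8 * (4 * d) ^ r) *
      (d * deg k (fun q : Fin r × Fin (n + 1) => v q.1 q.2) +
        deg k (fun i => algebraMap K L (c i))) := by
  classical
  let _ : AdmissibleAbsValues L := ffInst k L
  have harch : (archAbsVal : Multiset (AbsoluteValue L ℝ)) = 0 := rfl
  obtain ⟨⟨i0, hi0⟩, hc2⟩ := hc
  have hc0 : (fun i => algebraMap K L (c i)) ≠ 0 := by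
    intro h
    have := congrFun h i0
    simp only [hi0, map_one, Pi.zero_apply] at this
    exact one_ne_zero this
  set Φ : AbsoluteValue L ℝ → ℝ := fun w => ⨆ i, w (algebraMap K L (c i)) with hΦ
  have hPP : PP Φ = mulHeight (fun i => algebraMap K L (c i)) := PP_iSup hc0
  have hΦ0 : ∀ w, 0 ≤ Φ w := fun w => Real.iSup_nonneg_of_nonnegHomClass w _
  rcases dichV harch ((MvPolynomial.map (algebraMap K L)) '' GG) d hd Φ (FM_iSup hc0) hΦ0
      (by rw [hPP]; exact one_le_mulHeight _) (by
      rintro _ ⟨F, hF, rfl⟩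
      obtain ⟨e, he, hFe⟩ := hG F hF
      refine ⟨⟨e, he, hFe.map _⟩, ?_⟩
      intro w hw α
      rw [coeff_map]
      rcases hc2 F hF α with h | ⟨i, h⟩
      · rw [h, map_zero, map_zero]
        exact hΦ0 w
      · rw [h]
        exact Finite.le_ciSup_of_le (f := fun i => w (algebraMap K L (c i))) i le_rfl)
      hr t l v x hx.1 hx.2 (by
      rintro _ ⟨F, hF, rfl⟩
      rw [aeval_map_algebraMap]
      exact hz F hF) with ⟨lam, h1, h2⟩ | h
  · left
    refine ⟨lam, ?_, h2⟩
    intro F hF
    have h3 := h1 _ ⟨F, hF, rfl⟩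
    rw [aeval_map_algebraMap] at h3
    exact h3
  · right
    have hv : (fun q : Fin r × Fin (n + 1) => v q.1 q.2) ≠ 0 := by
      intro h0
      apply hx.1
      funext i
      rw [hx.2 i]
      refine Finset.sum_eq_zero fun j _ => ?_
      have h3 : v j i = 0 := congrFun h0 (j, i)
      rw [h3, mul_zero]
    rw [hPP] at h
    have h3 := Real.log_le_log (mulHeight_pos x) h
    rw [Real.log_pow, Real.log_mul (mulHeight_pos _).ne' (pow_pos (mulHeight_pos _) _).ne',
      Real.log_pow, ← logHeight_eq_log_mulHeight, ← logHeight_eq_log_mulHeight,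
      ← logHeight_eq_log_mulHeight, logHeight_deg k L hx.1, logHeight_deg k L hv,
      logHeight_deg k L hc0] at h3
    have h4 : ((deg k x : ℤ) : ℝ) ≤ (((1 + 8 * (4 * d) ^ r) *
      (d * deg k (fun q : Fin r × Fin (n + 1) => v q.1 q.2) +
        deg k (fun i => algebraMap K L (c i))) : ℤ) : ℝ) := by
      push_cast
      push_cast at h3
      linarith
    exact_mod_cast h4

/-- **Sparse points over function fields.** -/
theorem geo (k K : Type) [Field k] [CharZero k] [IsAlgClosed k] [Field K] [Algebra k K]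
    (GG : Set (MvPolynomial (Fin (n + 1)) K)) (d : ℕ) (hd : 1 ≤ d)
    (hG : ∀ F ∈ GG, ∃ e, e ≤ d ∧ F.IsHomogeneous e) {s : ℕ} (c : Fin s → K)
    (hc : CoeffsIn c GG) (hr : 1 ≤ r) :
    ((Ideal.span GG).IsPrime → ¬ Uniruled (Ideal.span GG) →
      ∃ G : MvPolynomial (Fin (n + 1)) K, (∃ e, G.IsHomogeneous e) ∧ G ∉ Ideal.span GG ∧
        ∀ (L : Type) [Field L] [Algebra k L] [Algebra K L] [IsScalarTower k K L] [IsFF k L]
          (t : L) (l : Fin r → ℕ) (v : Fin r → Fin (n + 1) → L) (x : Fin (n + 1) → L),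
          OnSparse t l v x → (∀ F ∈ GG, aeval x F = 0) → aeval x G ≠ 0 →
          deg k x ≤ (1 + 8 * (4 * d) ^ r) *
            (d * deg k (fun q : Fin r × Fin (n + 1) => v q.1 q.2) +
              deg k (fun i => algebraMap K L (c i)))) ∧
    (NoRatExt GG →
      ∀ (L : Type) [Field L] [Algebra k L] [Algebra K L] [IsScalarTower k K L] [IsFF k L]
        (t : L) (l : Fin r → ℕ) (v : Fin r → Fin (n + 1) → L) (x : Fin (n + 1) → L),
        OnSparse t l v x → (∀ F ∈ GG, aeval x F = 0) →
        deg k x ≤ (1 + 8 * (4 * d) ^ r) *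
          (d * deg k (fun q : Fin r × Fin (n + 1) => v q.1 q.2) +
            deg k (fun i => algebraMap K L (c i)))) := by
  constructor
  · intro hprime hnu
    obtain ⟨G, hG1, hG2, hG3⟩ := exists_hyper GG hprime hnu d hd hG r
    refine ⟨G, hG1, hG2, ?_⟩
    intro L _ _ _ _ _ t l v x hx hz hGx
    rcases dichG k K L GG d hd hG c hc hr t l v x hx hz with ⟨lam, h1, i, i', hne⟩ | h
    · exfalso
      apply hGx
      have hxf : x = fun i => ∑ j, t ^ (l j) * v j i := funext hx.2
      rw [hxf]
      refine hG3 L (fun j i => t ^ (l j) * v j i) lam h1 ⟨i, i', ?_⟩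
      rw [← hx.2 i', ← hx.2 i]
      exact hne
    · exact h
  · intro hno L _ _ _ _ _ t l v x hx hz
    rcases dichG k K L GG d hd hG c hc hr t l v x hx hz with ⟨lam, h1, i, i', hne⟩ | h
    · exfalso
      apply hne
      have hinf : Infinite L := Infinite.of_injective (algebraMap k L) (algebraMap k L).injective
      apply Polynomial.funext
      intro a
      rw [Polynomial.eval_mul, Polynomial.eval_mul, Polynomial.eval_C, Polynomial.eval_C]
      have h2 := hno L (cur (fun j i => t ^ (l j) * v j i) lam) h1 i i' a 1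
      rw [cur_eval_one, cur_eval_one, ← hx.2 i, ← hx.2 i'] at h2
      exact h2
    · exact h

end Pool.Agent.TH409.FB
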