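import Mathlib
import Pool.Agent.TH409.SH.NF
import Pool.Agent.TH409.SH.Main
import Pool.Agent.TH551.HE.Rat

set_option autoImplicit false

/-! # Sparse points on hyperelliptic curves, arbitrary algebraic base -/

namespace Pool.Agent.TH409.FB

open Finset Height Height.AdmissibleAbsValues Pool.Agent.TH409.SH NumberField
  Pool.Agent.H533R3.SL MvPolynomial

section basics

variable {K : Type} [Field K] [NumberField K]

theorem arch_int (w : AbsoluteValue K ℝ)
    (hw : w ∈ (archAbsVal : Multiset (AbsoluteValue K ℝ))) (a : ℤ) : w (a : K) = |(a : ℝ)| := by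
  have h1 : IsInfinitePlace w := mem_multisetInfinitePlace.1 hw
  obtain ⟨v, rfl⟩ := (isInfinitePlace_iff w).1 h1
  have h2 := InfinitePlace.norm_embedding_eq v (a : K)
  have h3 : (v.val : AbsoluteValue K ℝ) (a : K) = v (a : K) := rfl
  rw [h3, ← h2, map_intCast, Complex.norm_intCast]

theorem nonarch_int (w : AbsoluteValue K ℝ)
    (hw : w ∈ (nonarchAbsVal : Set (AbsoluteValue K ℝ))) (a : ℤ) : w (a : K) ≤ 1 := by
  have h := nonarch_le_one w hw (a : 𝓞 K)
  rwa [map_intCast] at h

/-- height of an integer -/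
theorem height_int (a : ℤ) : max |(a : ℝ)| 1 ^ totalWeight K ≤ mulHeight₁ (a : K) := by
  rw [Height.mulHeight₁_eq]
  have h1 : (archAbsVal.map fun w : AbsoluteValue K ℝ => max (w (a : K)) 1).prod =
      max |(a : ℝ)| 1 ^ totalWeight K := by
    have h2 : (archAbsVal.map fun w : AbsoluteValue K ℝ => max (w (a : K)) 1) =
        archAbsVal.map fun _ : AbsoluteValue K ℝ => max |(a : ℝ)| 1 :=
      Multiset.map_congr rfl fun w hw => by rw [arch_int w hw]
    rw [h2, Multiset.map_const', Multiset.prod_replicate]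
    rfl
  rw [h1]
  exact le_mul_of_one_le_right (by positivity) (one_le_finprod fun _ => le_max_right _ _)

/-- height of a vector of integers -/
theorem height_ints {ι : Type} [Finite ι] (c : ι → ℤ) (B : ℝ) (hB : 1 ≤ B)
    (hc : ∀ i, |(c i : ℝ)| ≤ B) :
    mulHeight (fun i => (c i : K)) ≤ B ^ totalWeight K := by
  by_cases h0 : (fun i => (c i : K)) = 0
  · rw [h0, mulHeight_zero]
    exact one_le_pow₀ hB
  have hne : Nonempty ι := by
    obtain ⟨i, _⟩ := Function.ne_iff.1 h0
    exact ⟨i⟩
  rw [← PP_iSup h0]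
  have h1 := PP_le (fun w : AbsoluteValue K ℝ => ⨆ i, w (c i : K)) (fun w => max (w (1 : K)) 1) B
    (FM_iSup h0) (FM_max 1) (fun w => Real.iSup_nonneg_of_nonnegHomClass w _)
    (by
      intro w hw
      rw [map_one, max_self, mul_one]
      refine ciSup_le fun i => ?_
      rw [arch_int w hw]
      exact hc i)
    (by
      intro w hw
      rw [map_one, max_self]
      exact ciSup_le fun i => nonarch_int w hw _)
  rw [PP_max, mulHeight₁_one, mul_one] at h1
  exact h1

end basics

section form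

/-- the form `X₂² X₀^(d-2) - ∑ a_i X₁^i X₀^(d-i)` of the curve `y² = f(x)`, `d = deg f` -/
noncomputable def QF (K : Type) [Field K] (f : Polynomial ℤ) : MvPolynomial (Fin 3) K :=
  X 2 ^ 2 * X 0 ^ (f.natDegree - 2) -
    ∑ i ∈ range (f.natDegree + 1), C (f.coeff i : K) * X 1 ^ i * X 0 ^ (f.natDegree - i)

variable {K : Type} [Field K] (f : Polynomial ℤ)

theorem QF_homog (hd : 2 ≤ f.natDegree) : (QF K f).IsHomogeneous f.natDegree := by
  unfold QF
  refine IsHomogeneous.sub ?_ (IsHomogeneous.sum _ _ _ fun i hi => ?_)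
  · have h1 := ((isHomogeneous_X_pow (R := K) (2 : Fin 3) 2).mul
      (isHomogeneous_X_pow (R := K) (0 : Fin 3) (f.natDegree - 2)))
    have h2 : 2 + (f.natDegree - 2) = f.natDegree := by omega
    rwa [h2] at h1
  · have h1 := (((isHomogeneous_C (Fin 3) (f.coeff i : K)).mul
      (isHomogeneous_X_pow (R := K) (1 : Fin 3) i)).mul
      (isHomogeneous_X_pow (R := K) (0 : Fin 3) (f.natDegree - i)))
    have h2 : 0 + i + (f.natDegree - i) = f.natDegree := by
      have := mem_range.1 hi
      omega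
    rwa [h2] at h1

theorem QF_aeval {R : Type} [CommRing R] [Algebra K R] (p : Fin 3 → R) :
    aeval p (QF K f) = p 2 ^ 2 * p 0 ^ (f.natDegree - 2) -
      ∑ i ∈ range (f.natDegree + 1),
        algebraMap K R (f.coeff i : K) * p 1 ^ i * p 0 ^ (f.natDegree - i) := by
  unfold QF
  simp only [map_sub, map_mul, map_pow, map_sum, aeval_X, aeval_C]

theorem QF_l1 (w : AbsoluteValue K ℝ) (M : ℝ) (hM : 1 ≤ M)
    (hf : ∀ i, w (f.coeff i : K) ≤ M) : l1 w (QF K f) ≤ (f.natDegree + 2) * M := by
  have hpow : ∀ (j : Fin 3) (e : ℕ), l1 w (X j ^ e : MvPolynomial (Fin 3) K) ≤ 1 := by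
    intro j e
    have := l1_pow (w := w) (X j : MvPolynomial (Fin 3) K) 1 (l1_X w j) e
    simpa using this
  have hneg : ∀ G : MvPolynomial (Fin 3) K, l1 w (-G) ≤ l1 w G := by
    intro G
    have h1 := l1_mul (w := w) (C (-1 : K)) G
    have h2 : C (-1 : K) * G = -G := by
      rw [map_neg, map_one, neg_one_mul]
    rw [h2] at h1
    refine h1.trans ?_
    have h3 : l1 w (C (-1 : K) : MvPolynomial (Fin 3) K) ≤ 1 := by
      refine (l1_C w (-1 : K)).trans (le_of_eq ?_)
      rw [AbsoluteValue.map_neg, map_one]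
    nlinarith [l1_nonneg w G]
  unfold QF
  rw [sub_eq_add_neg]
  refine (l1_add w _ _).trans ?_
  have h1 : l1 w (X 2 ^ 2 * X 0 ^ (f.natDegree - 2) : MvPolynomial (Fin 3) K) ≤ 1 := by
    refine (l1_mul w _ _).trans ?_
    exact mul_le_one₀ (hpow 2 2) (l1_nonneg w _) (hpow 0 _)
  have h2 : l1 w (∑ i ∈ range (f.natDegree + 1),
      C (f.coeff i : K) * X 1 ^ i * X 0 ^ (f.natDegree - i) : MvPolynomial (Fin 3) K) ≤
      (f.natDegree + 1) * M := by
    refine (l1_sum w _ _).trans ?_
    have h3 : ∀ i ∈ range (f.natDegree + 1), l1 w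
        (C (f.coeff i : K) * X 1 ^ i * X 0 ^ (f.natDegree - i) : MvPolynomial (Fin 3) K) ≤ M := by
      intro i _
      refine (l1_mul w _ _).trans ?_
      have h4 : l1 w (C (f.coeff i : K) * X 1 ^ i : MvPolynomial (Fin 3) K) ≤ M := by
        refine (l1_mul w _ _).trans ?_
        have h5 := l1_C (w := w) (τ := Fin 3) (f.coeff i : K)
        have h6 := hpow 1 i
        have h7 := l1_nonneg w (C (f.coeff i : K) : MvPolynomial (Fin 3) K)
        have h8 := l1_nonneg w (X 1 ^ i : MvPolynomial (Fin 3) K)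
        have h9 := hf i
        nlinarith
      have h6 := hpow 0 (f.natDegree - i)
      have h7 := l1_nonneg w (C (f.coeff i : K) * X 1 ^ i : MvPolynomial (Fin 3) K)
      have h8 := l1_nonneg w (X 0 ^ (f.natDegree - i) : MvPolynomial (Fin 3) K)
      nlinarith
    refine (Finset.sum_le_sum h3).trans ?_
    rw [Finset.sum_const, card_range, nsmul_eq_mul]
    push_cast
    exact le_rfl
  have h3 := hneg (∑ i ∈ range (f.natDegree + 1),
      C (f.coeff i : K) * X 1 ^ i * X 0 ^ (f.natDegree - i) : MvPolynomial (Fin 3) K)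
  have : (0 : ℝ) ≤ f.natDegree := Nat.cast_nonneg _
  nlinarith

theorem QF_BL (w : AbsoluteValue K ℝ) (hw : IsNonarchimedean w)
    (hf : ∀ i, w (f.coeff i : K) ≤ 1) : BL w 1 (QF K f) := by
  have hpow : ∀ (j : Fin 3) (e : ℕ), BL w 1 (X j ^ e : MvPolynomial (Fin 3) K) := by
    intro j e
    have := BL_pow hw (X j : MvPolynomial (Fin 3) K) 1 zero_le_one (BL_X j) e
    simpa using this
  have hmul : ∀ G H : MvPolynomial (Fin 3) K, BL w 1 G → BL w 1 H → BL w 1 (G * H) := by
    intro G H hG hH
    have := BL_mul hw G H 1 1 zero_le_one zero_le_one hG hH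
    simpa using this
  have hsum : BL w 1 (∑ i ∈ range (f.natDegree + 1),
      C (f.coeff i : K) * X 1 ^ i * X 0 ^ (f.natDegree - i) : MvPolynomial (Fin 3) K) :=
    BL_sum hw _ _ _ zero_le_one fun i _ => hmul _ _ (hmul _ _ (fun α =>
      (BL_C (w := w) (τ := Fin 3) (f.coeff i : K) α).trans (hf i)) (hpow 1 i)) (hpow 0 _)
  intro α
  unfold QF
  rw [coeff_sub, sub_eq_add_neg]
  refine (hw _ _).trans (max_le (hmul _ _ (hpow 2 2) (hpow 0 _) α) ?_)
  rw [map_neg_eq_map]
  exact hsum α

end form

/-- **Sparse points of hyperelliptic curves in any algebraic base.** -/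
theorem hyp_main (K : Type) [Field K] [NumberField K] (f : Polynomial ℤ)
    (hf : (f.map (Int.castRingHom ℚ)).Separable) (hd : 3 ≤ f.natDegree) (M : ℝ) (hM : 1 ≤ M)
    (hfM : ∀ i, |(f.coeff i : ℝ)| ≤ M) {r : ℕ} (hr : 1 ≤ r) (t : K) (l : Fin r → ℕ)
    (v : Fin r → Fin 3 → K) (x y : ℤ) (hxy : y ^ 2 = f.eval x) (z : K) (hz : z ≠ 0)
    (h0 : z = ∑ j, t ^ (l j) * v j 0) (h1 : z * x = ∑ j, t ^ (l j) * v j 1)
    (h2 : z * y = ∑ j, t ^ (l j) * v j 2) :
    max |(x : ℝ)| 1 ^ totalWeight K ≤ ((((f.natDegree + 2) * M) * r ^ f.natDegree) ^ totalWeight K *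
      mulHeight (fun q : Fin r × Fin 3 => v q.1 q.2) ^ f.natDegree) ^
        (1 + 8 * (4 * f.natDegree) ^ r) := by
  classical
  set u : Fin 3 → K := ![z, z * x, z * y] with hu
  have hu0 : u ≠ 0 := by
    intro h
    exact hz (congrFun h 0)
  have huv : ∀ i, u i = ∑ j, t ^ (l j) * v j i := by
    intro i
    fin_cases i
    · exact h0
    · exact h1
    · exact h2
  have hA : (1 : ℝ) ≤ (f.natDegree + 2) * M := by
    have : (0 : ℝ) ≤ f.natDegree := Nat.cast_nonneg _
    nlinarith
  have hzero : aeval u (QF K f) = 0 := by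
    rw [QF_aeval]
    have e1 : u 0 = z := rfl
    have e2 : u 1 = z * x := rfl
    have e3 : u 2 = z * y := rfl
    rw [e1, e2, e3]
    have h3 : ((y : K)) ^ 2 = ∑ i ∈ range (f.natDegree + 1), (f.coeff i : K) * (x : K) ^ i := by
      have h4 : ((y ^ 2 : ℤ) : K) = ((f.eval x : ℤ) : K) := by rw [hxy]
      rw [Polynomial.eval_eq_sum_range] at h4
      push_cast at h4
      exact h4
    have h5 : ∀ i ∈ range (f.natDegree + 1), algebraMap K K (f.coeff i : K) * (z * x) ^ i *
        z ^ (f.natDegree - i) = z ^ f.natDegree * ((f.coeff i : K) * (x : K) ^ i) := by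
      intro i hi
      have hi' : i ≤ f.natDegree := by
        have := mem_range.1 hi
        omega
      have h6 : z ^ f.natDegree = z ^ i * z ^ (f.natDegree - i) := by
        rw [← pow_add]
        congr 1
        omega
      rw [h6, mul_pow]
      simp only [Algebra.algebraMap_self, RingHom.id_apply]
      ring
    rw [Finset.sum_congr rfl h5, ← Finset.mul_sum, ← h3]
    have h6 : z ^ f.natDegree = z ^ 2 * z ^ (f.natDegree - 2) := by
      rw [← pow_add]
      congr 1
      omega
    rw [h6]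
    ring
  have hfK : (f.map (Int.castRingHom K)).Separable := by
    have h3 := hf.map (f := algebraMap ℚ K)
    rw [Polynomial.map_map] at h3
    have h4 : (algebraMap ℚ K).comp (Int.castRingHom ℚ) = Int.castRingHom K := RingHom.ext_int _ _
    rwa [h4] at h3
  have hdeg : (f.map (Int.castRingHom K)).natDegree = f.natDegree :=
    Polynomial.natDegree_map_eq_of_injective (Int.cast_injective) f
  rcases dichK ({QF K f} : Set (MvPolynomial (Fin 3) K)) f.natDegree (by omega)
      ((f.natDegree + 2) * M) hA (by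
      intro F hF
      rw [Set.mem_singleton_iff] at hF
      subst hF
      refine ⟨⟨f.natDegree, le_rfl, QF_homog f (by omega)⟩, ?_, ?_⟩
      · intro w hw
        exact QF_l1 f w M hM fun i => by rw [arch_int w hw]; exact hfM i
      · intro w hw
        exact QF_BL f w (isNonarchimedean w hw) fun i => nonarch_int w hw _) hr t l v u hu0 huv
      (by
      intro F hF
      rw [Set.mem_singleton_iff] at hF
      subst hF
      exact hzero) with ⟨lam, hcur, i, i', hc⟩ | h
  · exfalso
    set p := cur (fun j i => t ^ (l j) * v j i) lam with hp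
    have hev : ∀ i, (p i).eval 1 = u i := by
      intro i
      rw [hp, cur_eval_one, huv i]
    have hp0 : p 0 ≠ 0 := by
      intro h
      have h3 := hev 0
      rw [h, Polynomial.eval_zero] at h3
      exact hz h3.symm
    have h3 := hcur _ rfl
    rw [QF_aeval, sub_eq_zero] at h3
    obtain ⟨c, c', hc1, hc2⟩ := Pool.Agent.TH551.HE.no_param K (f.map (Int.castRingHom K)) hfK
      (by rw [hdeg]; exact hd) (p 1) (p 0) (p 2) hp0 (by
        rw [hdeg, h3]
        refine Finset.sum_congr rfl fun i _ => ?_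
        rw [Polynomial.coeff_map]
        rfl)
    have hall : ∀ i, ∃ e : K, p i = Polynomial.C e * p 0 := by
      intro i
      fin_cases i
      · exact ⟨1, by simp⟩
      · exact ⟨c, hc1⟩
      · exact ⟨c', hc2⟩
    obtain ⟨e, he⟩ := hall i
    obtain ⟨e', he'⟩ := hall i'
    apply hc
    have h4 : u i = e * u 0 := by
      rw [← hev i, he, Polynomial.eval_mul, Polynomial.eval_C, hev 0]
    have h5 : u i' = e' * u 0 := by
      rw [← hev i', he', Polynomial.eval_mul, Polynomial.eval_C, hev 0]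
    rw [he, he', h4, h5, Polynomial.C_mul, Polynomial.C_mul]
    ring
  · refine (height_int (K := K) x).trans (le_trans ?_ h)
    have h3 : ((x : K)) = u 1 / u 0 := by
      show (x : K) = z * x / z
      field_simp
    rw [h3, mulHeight₁_div_eq_mulHeight]
    have h4 : ![u 1, u 0] = u ∘ ![1, 0] := by
      funext j
      fin_cases j <;> rfl
    rw [h4]
    exact mulHeight_comp_le _ _

end Pool.Agent.TH409.FB
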