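import Mathlib
import Pool.Agent.TH409.FB.Hyp
import Pool.Agent.TH409.SH.Fin

set_option autoImplicit false

/-! # Sums of terms of Lucas sequences on hyperelliptic curves -/

namespace Pool.Agent.TH409.FB

open Finset Height Height.AdmissibleAbsValues Pool.Agent.TH409.SH NumberField

/-- The Lucas sequence `U_0 = 0`, `U_1 = 1`, `U_(n+2) = a U_(n+1) - b U_n`; the Fibonacci numbers
for `a = 1`, `b = -1`. -/
def luc (a b : ℤ) : ℕ → ℤ
  | 0 => 0
  | 1 => 1
  | n + 2 => a * luc a b (n + 1) - b * luc a b n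

/-- the logarithmic form -/
theorem hyp_log (K : Type) [Field K] [NumberField K] (f : Polynomial ℤ)
    (hf : (f.map (Int.castRingHom ℚ)).Separable) (hd : 3 ≤ f.natDegree) (M : ℝ) (hM : 1 ≤ M)
    (hfM : ∀ i, |(f.coeff i : ℝ)| ≤ M) {r : ℕ} (hr : 1 ≤ r) (t : K) (l : Fin r → ℕ)
    (v : Fin r → Fin 3 → K) (x y : ℤ) (hxy : y ^ 2 = f.eval x) (z : K) (hz : z ≠ 0)
    (h0 : z = ∑ j, t ^ (l j) * v j 0) (h1 : z * x = ∑ j, t ^ (l j) * v j 1)
    (h2 : z * y = ∑ j, t ^ (l j) * v j 2) :
    Real.log (max |(x : ℝ)| 1) ≤ (1 + 8 * (4 * f.natDegree) ^ r) *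
      (f.natDegree * ah K (fun q : Fin r × Fin 3 => v q.1 q.2) +
        Real.log ((f.natDegree + 2) * M * r ^ f.natDegree)) := by
  have h := hyp_main K f hf hd M hM hfM hr t l v x y hxy z hz h0 h1 h2
  have hD : (0 : ℝ) < Module.finrank ℚ K := finrank_pos' K
  have hr0 : (0 : ℝ) < r := by exact_mod_cast hr
  have hd0 : (0 : ℝ) ≤ f.natDegree := Nat.cast_nonneg _
  have hA : (0 : ℝ) < (f.natDegree + 2) * M * r ^ f.natDegree := by positivity
  have h3 := Real.log_le_log (by positivity) h
  rw [Real.log_pow, Real.log_pow, Real.log_mul (pow_pos hA _).ne'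
    (pow_pos (mulHeight_pos _) _).ne', Real.log_pow, Real.log_pow, totalWeight_eq_finrank] at h3
  unfold ah
  rw [logHeight_eq_log_mulHeight]
  push_cast at h3
  have h4 : (Module.finrank ℚ K : ℝ) * Real.log (max |(x : ℝ)| 1) ≤
      (Module.finrank ℚ K : ℝ) * ((1 + 8 * (4 * f.natDegree) ^ r) *
      (f.natDegree * (Real.log (mulHeight fun q : Fin r × Fin 3 => v q.1 q.2) /
        Module.finrank ℚ K) +
        Real.log ((f.natDegree + 2) * M * r ^ f.natDegree))) := by
    refine h3.trans (le_of_eq ?_)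
    field_simp
    ring
  exact le_of_mul_le_mul_left h4 hD

/-- Binet's formula -/
theorem binet {K : Type} [Field K] (a b : ℤ) (t s : K) (hts : t + s = a) (hp : t * s = b) (n : ℕ) :
    (t - s) * (luc a b n : K) = t ^ n - s ^ n := by
  induction n using Nat.twoStepInduction with
  | zero => simp [luc]
  | one => simp [luc]
  | more n ih1 ih2 =>
    have h1 : (luc a b (n + 2) : K) = a * (luc a b (n + 1) : K) - b * (luc a b n : K) := by
      rw [luc]
      push_cast
      ring
    rw [h1, ← hts, ← hp]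
    calc (t - s) * ((t + s) * (luc a b (n + 1) : K) - t * s * (luc a b n : K))
        = (t + s) * ((t - s) * (luc a b (n + 1) : K)) -
          t * s * ((t - s) * (luc a b n : K)) := by ring
      _ = t ^ (n + 2) - s ^ (n + 2) := by rw [ih1, ih2]; ring

/-- a number field with the roots -/
theorem exists_field (a b : ℤ) (hb : b = 1 ∨ b = -1) : ∃ (K : Type) (_ : Field K)
    (_ : NumberField K) (t : K), t ≠ 0 ∧ t + b * t⁻¹ = a := by
  obtain ⟨s, hs⟩ : ∃ s : ℂ, discrim (1 : ℂ) (-(a : ℂ)) b = s * s := by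
    obtain ⟨s, hs⟩ := IsAlgClosed.exists_pow_nat_eq (discrim (1 : ℂ) (-(a : ℂ)) b) (n := 2)
      (by norm_num)
    exact ⟨s, by rw [← hs, sq]⟩
  obtain ⟨τ, hτ⟩ := exists_quadratic_eq_zero (one_ne_zero (α := ℂ)) ⟨s, hs⟩
  have halg : IsIntegral ℚ τ := by
    rw [← isAlgebraic_iff_isIntegral]
    refine ⟨Polynomial.X ^ 2 - Polynomial.C (a : ℚ) * Polynomial.X + Polynomial.C (b : ℚ), ?_, ?_⟩
    · have h2 : (Polynomial.X ^ 2 - Polynomial.C (a : ℚ) * Polynomial.X +
          Polynomial.C (b : ℚ) : Polynomial ℚ).natDegree = 2 := by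
        compute_degree!
      exact Polynomial.ne_zero_of_natDegree_gt (n := 0) (by rw [h2]; norm_num)
    · simp only [map_add, map_sub, map_mul, map_pow, Polynomial.aeval_X, Polynomial.aeval_C]
      simp only [eq_ratCast, Rat.cast_intCast]
      linear_combination hτ
  have hfin : FiniteDimensional ℚ (IntermediateField.adjoin ℚ {τ}) :=
    IntermediateField.adjoin.finiteDimensional halg
  let K := IntermediateField.adjoin ℚ {τ}
  have hNF : NumberField K := { to_charZero := inferInstance, to_finiteDimensional := hfin }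
  let t : K := IntermediateField.AdjoinSimple.gen ℚ τ
  have ht : (t : ℂ) = τ := IntermediateField.AdjoinSimple.coe_gen ℚ τ
  have hτ0 : τ ≠ 0 := by
    rintro rfl
    rcases hb with rfl | rfl <;> simp at hτ
  refine ⟨K, inferInstance, hNF, t, ?_, ?_⟩
  · intro h
    apply hτ0
    rw [← ht, h]
    rfl
  · apply Subtype.val_injective
    push_cast
    rw [ht]
    field_simp
    linear_combination hτ

/-- **Sums of terms of Lucas sequences.** -/
theorem luc_main (f : Polynomial ℤ) (hf : (f.map (Int.castRingHom ℚ)).Separable)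
    (hd : 3 ≤ f.natDegree) (M : ℝ) (hM : 1 ≤ M) (hfM : ∀ i, |(f.coeff i : ℝ)| ≤ M)
    (a b : ℤ) (hb : b = 1 ∨ b = -1) (hab : a ^ 2 ≠ 4 * b) (r : ℕ) (B : ℝ) (hB : 1 ≤ B)
    (c c' : Fin r → ℤ) (hc : ∀ j, |(c j : ℝ)| ≤ B) (hc' : ∀ j, |(c' j : ℝ)| ≤ B)
    (m m' : Fin r → ℕ) (x y : ℤ) (hxy : y ^ 2 = f.eval x)
    (hx : x = ∑ j, c j * luc a b (m j)) (hy : y = ∑ j, c' j * luc a b (m' j)) :
    max |(x : ℝ)| 1 ≤ ((f.natDegree + 2) * M * ((4 * r + 2) * B) ^ f.natDegree) ^
      (1 + 8 * (4 * f.natDegree) ^ (4 * r + 2)) := by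
  classical
  obtain ⟨K, iF, iN, t, ht0, hta⟩ := exists_field a b hb
  set s : K := b * t⁻¹ with hs
  have hts : t * s = b := by
    rw [hs]
    field_simp
  have hb1 : |(b : ℝ)| = 1 := by
    rcases hb with rfl | rfl <;> simp
  set N : ℕ := (∑ j, m j) + (∑ j, m' j) + 1 with hN
  have hmN : ∀ j, m j ≤ N := by
    intro j
    have := Finset.single_le_sum (f := m) (fun _ _ => Nat.zero_le _) (Finset.mem_univ j)
    omega
  have hmN' : ∀ j, m' j ≤ N := by
    intro j
    have := Finset.single_le_sum (f := m') (fun _ _ => Nat.zero_le _) (Finset.mem_univ j)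
    omega
  have hsn : ∀ k, k ≤ N → t ^ N * s ^ k = t ^ (N - k) * (b : K) ^ k := by
    intro k hk
    have h1 : t ^ N = t ^ (N - k) * t ^ k := by
      rw [← pow_add]
      congr 1
      omega
    rw [h1, mul_assoc, ← mul_pow, hts]
  have hzne : t - s ≠ 0 := by
    intro h
    apply hab
    have h1 : ((a ^ 2 : ℤ) : K) = ((4 * b : ℤ) : K) := by
      push_cast
      rw [← hta, ← hts]
      linear_combination (t - s) * h
    exact_mod_cast h1
  -- the index set
  let ι := Bool ⊕ ((Fin r × Bool) ⊕ (Fin r × Bool))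
  let ex : ι → ℕ := Sum.elim (fun β => if β then N + 1 else N - 1)
    (Sum.elim (fun q => if q.2 then N + m q.1 else N - m q.1)
      (fun q => if q.2 then N + m' q.1 else N - m' q.1))
  let w : ι → Fin 3 → ℤ := Sum.elim (fun β => ![if β then 1 else -b, 0, 0])
    (Sum.elim (fun q => ![0, if q.2 then c q.1 else -(c q.1 * b ^ m q.1), 0])
      (fun q => ![0, 0, if q.2 then c' q.1 else -(c' q.1 * b ^ m' q.1)]))
  have hcard : Fintype.card ι = 4 * r + 2 := by
    simp only [ι, Fintype.card_sum, Fintype.card_bool, Fintype.card_prod, Fintype.card_fin]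
    ring
  let e : Fin (4 * r + 2) ≃ ι := (Fintype.equivFinOfCardEq hcard).symm
  have hN1 : 1 ≤ N := by omega
  have key : ∀ (g : Fin 3), ∑ j : Fin (4 * r + 2), t ^ (ex (e j)) * (w (e j) g : K) =
      ∑ i : ι, t ^ (ex i) * (w i g : K) := fun g =>
    Equiv.sum_comp e (fun i => t ^ (ex i) * (w i g : K))
  have hz0 : t ^ N * (t - s) = ∑ i : ι, t ^ (ex i) * (w i 0 : K) := by
    have h1 := hsn 1 hN1
    rw [Fintype.sum_sum_type, Fintype.sum_sum_type]
    simp only [ι, ex, w, Sum.elim_inl, Sum.elim_inr, Fintype.sum_bool, Matrix.cons_val_zero,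
      Int.cast_zero, mul_zero, Finset.sum_const_zero, add_zero, if_true, Bool.false_eq_true,
      if_false, Int.cast_one, mul_one, Int.cast_neg]
    rw [pow_one, pow_one] at h1
    rw [mul_sub, h1]
    ring
  have hz1 : t ^ N * (t - s) * (x : K) = ∑ i : ι, t ^ (ex i) * (w i 1 : K) := by
    rw [Fintype.sum_sum_type, Fintype.sum_sum_type, hx]
    simp only [ι, ex, w, Sum.elim_inl, Sum.elim_inr, Fintype.sum_prod_type, Fintype.sum_bool,
      Matrix.cons_val_one, Matrix.cons_val_zero, Int.cast_zero, mul_zero,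
      Finset.sum_const_zero, add_zero, zero_add, if_true, Bool.false_eq_true, if_false]
    push_cast
    rw [Finset.mul_sum]
    refine Finset.sum_congr rfl fun j _ => ?_
    have h1 := binet a b t s hta hts (m j)
    have h2 := hsn (m j) (hmN j)
    calc t ^ N * (t - s) * ((c j : K) * (luc a b (m j) : K))
        = (c j : K) * (t ^ N * ((t - s) * (luc a b (m j) : K))) := by ring
      _ = (c j : K) * (t ^ N * t ^ m j - t ^ N * s ^ m j) := by rw [h1]; ring
      _ = _ := by rw [h2, pow_add]; ring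
  have hz2 : t ^ N * (t - s) * (y : K) = ∑ i : ι, t ^ (ex i) * (w i 2 : K) := by
    rw [Fintype.sum_sum_type, Fintype.sum_sum_type, hy]
    simp only [ι, ex, w, Sum.elim_inl, Sum.elim_inr, Fintype.sum_prod_type, Fintype.sum_bool,
      Matrix.cons_val, Int.cast_zero, mul_zero,
      Finset.sum_const_zero, add_zero, zero_add, if_true, Bool.false_eq_true, if_false]
    push_cast
    rw [Finset.mul_sum]
    refine Finset.sum_congr rfl fun j _ => ?_
    have h1 := binet a b t s hta hts (m' j)
    have h2 := hsn (m' j) (hmN' j)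
    calc t ^ N * (t - s) * ((c' j : K) * (luc a b (m' j) : K))
        = (c' j : K) * (t ^ N * ((t - s) * (luc a b (m' j) : K))) := by ring
      _ = (c' j : K) * (t ^ N * t ^ m' j - t ^ N * s ^ m' j) := by rw [h1]; ring
      _ = _ := by rw [h2, pow_add]; ring
  have hmain := hyp_main K f hf hd M hM hfM (r := 4 * r + 2) (by omega) t (fun j => ex (e j))
    (fun j g => (w (e j) g : K)) x y hxy (t ^ N * (t - s))
    (mul_ne_zero (pow_ne_zero N ht0) hzne) (by rw [key, hz0]) (by rw [key, hz1])
    (by rw [key, hz2])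
  have hwB : ∀ i g, |(w i g : ℝ)| ≤ B := by
    have hpow : ∀ k : ℕ, |((b : ℝ) ^ k)| = 1 := by
      intro k
      rw [abs_pow, hb1, one_pow]
    rintro (β | q | q) g
    · fin_cases g
      · cases β
        · simpa [w, hb1] using hB
        · simpa [w] using hB
      · simpa [w] using le_trans zero_le_one hB
      · simpa [w] using le_trans zero_le_one hB
    · obtain ⟨j, β⟩ := q
      fin_cases g
      · simpa [w] using le_trans zero_le_one hB
      · cases β
        · simpa [w, abs_mul, hpow, hb1] using hc j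
        · simpa [w] using hc j
      · simpa [w] using le_trans zero_le_one hB
    · obtain ⟨j, β⟩ := q
      fin_cases g
      · simpa [w] using le_trans zero_le_one hB
      · simpa [w] using le_trans zero_le_one hB
      · cases β
        · simpa [w, abs_mul, hpow, hb1] using hc' j
        · simpa [w] using hc' j
  have hH : mulHeight (fun q : Fin (4 * r + 2) × Fin 3 => (w (e q.1) q.2 : K)) ≤
      B ^ totalWeight K :=
    height_ints (fun q : Fin (4 * r + 2) × Fin 3 => w (e q.1) q.2) B hB fun q => hwB _ _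
  have hD : totalWeight K ≠ 0 := by
    rw [totalWeight_eq_finrank]
    exact Module.finrank_pos.ne'
  have hd0 : (0 : ℝ) ≤ f.natDegree := Nat.cast_nonneg _
  have hfin : max |(x : ℝ)| 1 ^ totalWeight K ≤
      (((f.natDegree + 2) * M * ((4 * r + 2) * B) ^ f.natDegree) ^
      (1 + 8 * (4 * f.natDegree) ^ (4 * r + 2))) ^ totalWeight K := by
    refine hmain.trans ?_
    rw [← pow_mul, mul_comm (1 + 8 * (4 * f.natDegree) ^ (4 * r + 2)), pow_mul]
    refine pow_le_pow_left₀ (by positivity) ?_ _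
    calc ((f.natDegree + 2) * M * ((4 * r + 2 : ℕ) : ℝ) ^ f.natDegree) ^ totalWeight K *
        mulHeight (fun q : Fin (4 * r + 2) × Fin 3 => (w (e q.1) q.2 : K)) ^ f.natDegree
        ≤ ((f.natDegree + 2) * M * ((4 * r + 2 : ℕ) : ℝ) ^ f.natDegree) ^ totalWeight K *
          (B ^ totalWeight K) ^ f.natDegree := by
          refine mul_le_mul_of_nonneg_left ?_ (by positivity)
          exact pow_le_pow_left₀ (mulHeight_pos _).le hH _
      _ = ((f.natDegree + 2) * M * ((4 * r + 2) * B) ^ f.natDegree) ^ totalWeight K := by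
          rw [← pow_mul, mul_comm (totalWeight K), pow_mul, ← mul_pow]
          congr 1
          push_cast
          rw [mul_pow]
          ring
  exact (pow_le_pow_iff_left₀ (by positivity) (by positivity) hD).1 hfin

end Pool.Agent.TH409.FB
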